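import Pool.Agent.H11P.Defs

set_option autoImplicit false

namespace Pool.Agent.H11P

open Polynomial

namespace A

lemma gl (K : Set ℂ) (hK : Convex ℝ K) (n : ℕ) : ∀ Q : ℂ[X], Q ≠ 0 → n ≤ Q.natDegree →
    (∀ x : ℂ, Q.eval x = 0 → x ∈ K) → ∀ x : ℂ, (derivative^[n] Q).eval x = 0 → x ∈ K := by
  induction n with
  | zero => intro Q _ _ h x hx; exact h x hx
  | succ n ih =>
    intro Q hQ hn h x hx
    rw [Function.iterate_succ_apply] at hx
    have hd : 0 < Q.natDegree := by omega
    have h1 : derivative Q ≠ 0 := by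
      intro h0
      have := derivative_eq_zero.1 h0
      omega
    have h2 : n ≤ (derivative Q).natDegree := by
      rw [natDegree_derivative]
      omega
    refine ih (derivative Q) h1 h2 ?_ x hx
    intro y hy
    have h3 : y ∈ (derivative Q).rootSet ℂ := by
      rw [mem_rootSet]
      exact ⟨h1, by simpa using hy⟩
    have h4 := rootSet_derivative_subset_convexHull_rootSet (P := Q) (natDegree_pos_iff_degree_pos.1 hd) h3
    refine convexHull_min ?_ hK h4
    intro w hw
    rw [mem_rootSet] at hw
    exact h w (by simpa using hw.2)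

lemma pos_eval (p : ℝ[X]) (hp : ∀ j, 0 ≤ p.coeff j) (hp0 : p ≠ 0) (w : ℝ) (hw : 0 < w) :
    0 < p.eval w := by
  rw [eval_eq_sum_range]
  apply Finset.sum_pos'
  · intro i _
    exact mul_nonneg (hp i) (by positivity)
  · refine ⟨p.natDegree, by simp, ?_⟩
    have : 0 < p.coeff p.natDegree := lt_of_le_of_ne (hp _) (fun h => hp0 (by
      rw [← leadingCoeff_eq_zero]; exact h.symm))
    positivity

lemma root_nonpos (p : ℝ[X]) (hp : RR p) (w : ℂ) (hw : aeval w p = 0) : w.im = 0 ∧ w.re ≤ 0 := by
  have h1 := hp.2 w hw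
  refine ⟨h1, ?_⟩
  by_contra hlt
  push Not at hlt
  have hp0 : p ≠ 0 := by
    rintro rfl
    have := hp.2 Complex.I (by simp)
    simp at this
  have h2 := pos_eval p hp.1 hp0 w.re hlt
  have h3 : w = ((w.re : ℝ) : ℂ) := by
    apply Complex.ext
    · simp
    · simp [h1]
  rw [h3] at hw
  have h4 : aeval ((w.re : ℝ) : ℂ) p = ((p.eval w.re : ℝ) : ℂ) := by
    have := aeval_algebraMap_apply (A := ℝ) ℂ w.re p
    simpa using this
  rw [h4] at hw
  have h5 : p.eval w.re = 0 := by exact_mod_cast hw
  linarith

def K : Set ℂ := {w | w.im < 0 ∨ (w.im = 0 ∧ w.re < 0)}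

lemma convex_K : Convex ℝ K := by
  intro x hx y hy a b ha hb hab
  simp only [K, Set.mem_ofPred_eq, Complex.add_im, Complex.add_re, Complex.real_smul,
    Complex.mul_im, Complex.mul_re, Complex.ofReal_re, Complex.ofReal_im, zero_mul, add_zero,
    sub_zero] at hx hy ⊢
  rcases eq_or_lt_of_le ha with h0 | ha0
  · have hb1 : b = 1 := by linarith
    subst hb1
    rw [← h0]
    simpa using hy
  · rcases eq_or_lt_of_le hb with h0 | hb0
    · have ha1 : a = 1 := by linarith
      subst ha1
      rw [← h0]
      simpa using hx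
    · rcases hx with hx | ⟨hx, hx'⟩ <;> rcases hy with hy | ⟨hy, hy'⟩
      · left; nlinarith
      · left; rw [hy]; nlinarith
      · left; rw [hx]; nlinarith
      · right; rw [hx, hy]; constructor
        · ring
        · nlinarith

lemma hadamard (f g h : ℝ[X]) (hf : RR f) (hg : RR g) (hdeg : f.natDegree = g.natDegree)
    (h0 : f.coeff 0 ≠ 0) (hh : ∀ j, h.coeff j = f.coeff j * g.coeff j) : RR h := by
  have hf0 : f ≠ 0 := by rintro rfl; simp at h0
  have hg0 : g ≠ 0 := by
    rintro rfl
    have := hg.2 Complex.I (by simp)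
    simp at this
  have key : ∀ z : ℂ, z.im < 0 → aeval z h ≠ 0 := by
    intro z hz hz0
    have hz1 : z ≠ 0 := by rintro rfl; simp at hz
    set m := f.natDegree with hm
    have hQm : ((f.map (algebraMap ℝ ℂ)).comp (C z * X) * (g.map (algebraMap ℝ ℂ)).reverse).coeff m
        = aeval z h := by
      have hhd : h.natDegree < m + 1 := by
        rw [Nat.lt_succ_iff, natDegree_le_iff_coeff_eq_zero]
        intro N hN
        rw [hh, coeff_eq_zero_of_natDegree_lt hN, zero_mul]
      rw [aeval_eq_sum_range' hhd, coeff_mul, Finset.Nat.sum_antidiagonal_eq_sum_range_succ_mk]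
      apply Finset.sum_congr rfl
      intro i hi
      have hi' : i ≤ m := by
        have := Finset.mem_range.1 hi
        omega
      rw [comp_C_mul_X_coeff, coeff_reverse, natDegree_map, ← hdeg, revAt_le (by omega), hh]
      have : m - (m - i) = i := by omega
      simp only [this, coeff_map, Algebra.smul_def, map_mul]
      ring
    have hfz : ((f.map (algebraMap ℝ ℂ)).comp (C z * X)).natDegree = m := by
      rw [natDegree_comp, natDegree_map, natDegree_C_mul_X z hz1, mul_one]
    have hfz0 : (f.map (algebraMap ℝ ℂ)).comp (C z * X) ≠ 0 := by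
      intro h1
      have h2 : ((f.map (algebraMap ℝ ℂ)).comp (C z * X)).coeff 0 = 0 := by rw [h1]; simp
      rw [comp_C_mul_X_coeff] at h2
      simp at h2
      exact h0 h2
    have hgr0 : (g.map (algebraMap ℝ ℂ)).reverse ≠ 0 := by
      rw [Ne, reverse_eq_zero, Polynomial.map_eq_zero]
      exact hg0
    have hroots : ∀ x : ℂ, ((f.map (algebraMap ℝ ℂ)).comp (C z * X) *
        (g.map (algebraMap ℝ ℂ)).reverse).eval x = 0 → x ∈ K := by
      intro x hx
      rw [eval_mul, mul_eq_zero] at hx
      rcases hx with hx | hx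
      · rw [eval_comp, eval_mul, eval_C, eval_X, eval_map_algebraMap] at hx
        obtain ⟨h1, h2⟩ := root_nonpos f hf _ hx
        have h3 : (z * x).re ≠ 0 := by
          intro h4
          have h5 : z * x = 0 := Complex.ext h4 h1
          rw [h5] at hx
          apply h0
          rw [← coeff_zero_eq_aeval_zero'] at hx
          simpa using hx
        have h4 : (z * x).re < 0 := lt_of_le_of_ne h2 h3
        left
        rw [Complex.mul_im] at h1
        rw [Complex.mul_re] at h4
        -- z.re x.im + z.im x.re = 0 ; z.re x.re - z.im x.im < 0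
        by_contra hc
        push Not at hc
        have h5 : (z.re * x.re - z.im * x.im) * z.im = -((z.re ^ 2 + z.im ^ 2) * x.im) := by
          linear_combination z.re * h1
        have h6 := mul_pos_of_neg_of_neg h4 hz
        have h7 := mul_nonneg (add_nonneg (sq_nonneg z.re) (sq_nonneg z.im)) hc
        linarith
      · have hx0 : x ≠ 0 := by
          rintro rfl
          rw [← coeff_zero_eq_eval_zero, coeff_zero_reverse, leadingCoeff_map] at hx
          simp at hx
          exact hg0 hx
        right
        have h1 : eval₂ (RingHom.id ℂ) (x⁻¹) (g.map (algebraMap ℝ ℂ)) = 0 := by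
          have hinv : Invertible (x⁻¹) := invertibleOfNonzero (inv_ne_zero hx0)
          have h2 := eval₂_reverse_mul_pow (RingHom.id ℂ) (x⁻¹) (g.map (algebraMap ℝ ℂ))
          rw [invOf_eq_inv, inv_inv] at h2
          rw [← h2]
          have h3 : eval₂ (RingHom.id ℂ) x (g.map (algebraMap ℝ ℂ)).reverse = 0 := hx
          rw [h3, zero_mul]
        have h2 : aeval (x⁻¹) g = 0 := by
          rw [eval₂_map] at h1
          simpa [aeval_def] using h1
        obtain ⟨h3, h4⟩ := root_nonpos g hg _ h2
        rw [Complex.inv_im] at h3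
        rw [Complex.inv_re] at h4
        have hn : 0 < Complex.normSq x := Complex.normSq_pos.2 hx0
        have h5 : x.im = 0 := by
          rw [div_eq_zero_iff] at h3
          rcases h3 with h3 | h3
          · linarith
          · exact absurd h3 hn.ne'
        refine ⟨h5, ?_⟩
        have h6 : x.re ≤ 0 := by
          by_contra hc
          push Not at hc
          have := div_pos hc hn
          linarith
        refine lt_of_le_of_ne h6 (fun h7 => hx0 (Complex.ext h7 h5))
    have h1 := gl K convex_K m _ (mul_ne_zero hfz0 hgr0) (by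
      rw [natDegree_mul hfz0 hgr0, hfz]; omega) hroots 0 (by
      rw [← coeff_zero_eq_eval_zero, coeff_iterate_derivative, zero_add, hQm, hz0, smul_zero])
    rcases h1 with h1 | ⟨-, h1⟩ <;> simp at h1
  refine ⟨fun j => by rw [hh]; exact mul_nonneg (hf.1 j) (hg.1 j), ?_⟩
  intro z hz
  by_contra hne
  rcases lt_or_gt_of_ne hne with hlt | hgt
  · exact key z hlt hz
  · apply key (starRingEnd ℂ z) (by rw [Complex.conj_im]; linarith)
    rw [aeval_conj, hz, map_zero]

lemma exists_pow (n : ℕ) (hn : 1 ≤ n) (f : ℝ[X]) :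
    ∀ j, (∑ j ∈ Finset.range (f.natDegree + 1), monomial j ((f.coeff j) ^ n)).coeff j
      = f.coeff j ^ n := by
  intro j
  rw [finsetSum_coeff]
  simp only [coeff_monomial]
  rw [Finset.sum_ite_eq' (Finset.range (f.natDegree + 1)) j]
  split_ifs with h
  · rfl
  · have h1 : f.natDegree < j := by
      rw [Finset.mem_range] at h
      omega
    rw [coeff_eq_zero_of_natDegree_lt h1, zero_pow (by omega)]

lemma malo0 (f : ℝ[X]) (hf : RR f) (h0 : f.coeff 0 ≠ 0) (n : ℕ) (hn : 1 ≤ n) :
    ∀ h : ℝ[X], (∀ j, h.coeff j = f.coeff j ^ n) → RR h := by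
  induction n, hn using Nat.le_induction with
  | base =>
    intro h hh
    have : h = f := by
      ext j; rw [hh, pow_one]
    rw [this]; exact hf
  | succ n hn ih =>
    intro h hh
    have hg := exists_pow n hn f
    generalize (∑ j ∈ Finset.range (f.natDegree + 1), monomial j ((f.coeff j) ^ n)) = g at hg
    have hf0 : f ≠ 0 := by rintro rfl; simp at h0
    refine hadamard f g h hf (ih g hg) ?_ h0 (fun j => by rw [hh, hg, pow_succ]; ring)
    symm
    apply natDegree_eq_of_le_of_coeff_ne_zero
    · rw [natDegree_le_iff_coeff_eq_zero]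
      intro N hN
      rw [hg, coeff_eq_zero_of_natDegree_lt hN, zero_pow (by omega)]
    · rw [hg]
      apply pow_ne_zero
      exact leadingCoeff_ne_zero.2 hf0

end A

open A in
theorem malo_pow (n : ℕ) (hn : 1 ≤ n) (f : ℝ[X]) (hf : RR f) :
    RR (∑ j ∈ Finset.range (f.natDegree + 1), monomial j ((f.coeff j) ^ n)) := by
  have hf0 : f ≠ 0 := by
    rintro rfl
    have := hf.2 Complex.I (by simp)
    simp at this
  have hh := exists_pow n hn f
  generalize (∑ j ∈ Finset.range (f.natDegree + 1), monomial j ((f.coeff j) ^ n)) = h at hh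
  obtain ⟨q, hq1, hq2⟩ := exists_eq_pow_rootMultiplicity_mul_and_not_dvd f hf0 0
  rw [C_0, sub_zero] at hq1 hq2
  generalize f.rootMultiplicity 0 = r at hq1
  rw [X_dvd_iff] at hq2
  have hq : RR q := by
    refine ⟨fun j => ?_, fun z hz => hf.2 z ?_⟩
    · have := hf.1 (j + r)
      rw [hq1, coeff_X_pow_mul] at this
      exact this
    · rw [hq1, map_mul, hz, mul_zero]
  have hpw := exists_pow n hn q
  generalize (∑ j ∈ Finset.range (q.natDegree + 1), monomial j ((q.coeff j) ^ n)) = h1 at hpw
  have hR1 := malo0 q hq hq2 n hn h1 hpw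
  have hX : h = X ^ r * h1 := by
    ext j
    rw [hh, hq1, coeff_X_pow_mul', coeff_X_pow_mul']
    split_ifs with hj
    · rw [hpw]
    · rw [zero_pow (by omega)]
  rw [hX]
  refine ⟨fun j => ?_, fun z hz => ?_⟩
  · rw [coeff_X_pow_mul']
    split_ifs with hj
    · exact hR1.1 _
    · exact le_rfl
  · rw [map_mul, map_pow, aeval_X, mul_eq_zero] at hz
    rcases hz with hz | hz
    · have : z = 0 := by
        by_contra hne
        exact pow_ne_zero r hne hz
      rw [this]; simp
    · exact hR1.2 z hz

end Pool.Agent.H11P
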