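import Mathlib

/-! Entrywise maps preserving real-rooted polynomials with nonnegative coefficients (MP_f91407_an). -/
namespace Pool.Agent.H11P

open Polynomial

/-- nonnegative coefficients and only real zeros (so not the zero polynomial) -/
def RR (f : ℝ[X]) : Prop :=
  (∀ j, 0 ≤ f.coeff j) ∧ ∀ z : ℂ, aeval z f = 0 → z.im = 0

/-- the entrywise image `F[f]` -/
noncomputable def emap (F : ℝ → ℝ) (f : ℝ[X]) : ℝ[X] :=
  ∑ j ∈ Finset.range (f.natDegree + 1), monomial j (F (f.coeff j))

end Pool.Agent.H11P
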