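import Mathlib
import Pool.Agent.H11P.Defs

set_option autoImplicit false

namespace Pool.Agent.H11P

open Polynomial

lemma B_aeval_re (B : ℝ[X]) (z : ℂ) (hz : z.im = 0) : aeval z B = ((B.eval z.re : ℝ) : ℂ) := by
  have h : z = algebraMap ℝ ℂ z.re := by
    apply Complex.ext <;> simp [hz]
  rw [h, aeval_algebraMap_apply_eq_algebraMap_eval]
  simp

lemma B_fact (n : ℕ) : ∀ B : ℝ[X], B.natDegree = n → 0 < B.leadingCoeff →
    (∀ z : ℂ, aeval z B = 0 → z.im = 0 ∧ z.re ≤ 0) →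
    ∃ c : ℝ, 0 < c ∧ ∃ s : Multiset ℝ, (∀ ρ ∈ s, 0 ≤ ρ) ∧ B = C c * (s.map (fun ρ => X + C ρ)).prod := by
  induction n with
  | zero =>
    intro B hn hl _
    refine ⟨B.leadingCoeff, hl, 0, by simp, ?_⟩
    simp only [Multiset.map_zero, Multiset.prod_zero, mul_one]
    rw [leadingCoeff, hn]
    exact eq_C_of_natDegree_eq_zero hn
  | succ n ih =>
    intro B hn hl hr
    have hB0 : B ≠ 0 := by rintro rfl; simp at hn
    have hdeg : B.degree ≠ 0 := by
      rw [degree_eq_natDegree hB0, hn]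
      exact_mod_cast Nat.succ_ne_zero n
    obtain ⟨z, hz⟩ := IsAlgClosed.exists_aeval_eq_zero ℂ B hdeg
    obtain ⟨him, hre⟩ := hr z hz
    have hz' := hz
    rw [B_aeval_re B z him] at hz'
    have hroot : IsRoot B z.re := by exact_mod_cast hz'
    obtain ⟨Q, hQ⟩ := dvd_iff_isRoot.2 hroot
    have hQ0 : Q ≠ 0 := by rintro rfl; simp at hQ; exact hB0 hQ
    have hlc : Q.leadingCoeff = B.leadingCoeff := by
      rw [hQ, leadingCoeff_mul, leadingCoeff_X_sub_C, one_mul]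
    have hnd : Q.natDegree = n := by
      have := natDegree_mul (X_sub_C_ne_zero z.re) hQ0
      rw [← hQ, natDegree_X_sub_C, hn] at this
      omega
    obtain ⟨c, hc, s, hs, hQs⟩ := ih Q hnd (hlc ▸ hl) (fun w hw => hr w (by rw [hQ, map_mul, hw, mul_zero]))
    refine ⟨c, hc, (-z.re) ::ₘ s, ?_, ?_⟩
    · intro ρ hρ
      rcases Multiset.mem_cons.1 hρ with rfl | h
      · linarith
      · exact hs ρ h
    · rw [Multiset.map_cons, Multiset.prod_cons, hQ]
      conv_lhs => rw [hQs]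
      simp only [C_neg]
      ring

lemma RR_ne {B : ℝ[X]} (hB : RR B) : B ≠ 0 := by
  rintro rfl
  have := hB.2 Complex.I (by simp)
  simp at this

lemma RR_factor {B : ℝ[X]} (hB : RR B) :
    ∃ c : ℝ, 0 < c ∧ ∃ s : Multiset ℝ, (∀ ρ ∈ s, 0 ≤ ρ) ∧ B = C c * (s.map (fun ρ => X + C ρ)).prod := by
  have h0 := RR_ne hB
  have hl : 0 < B.leadingCoeff := lt_of_le_of_ne (hB.1 _) (Ne.symm (leadingCoeff_ne_zero.2 h0))
  apply B_fact B.natDegree B rfl hl
  intro z hz
  have him := hB.2 z hz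
  refine ⟨him, ?_⟩
  by_contra hre
  push Not at hre
  rw [B_aeval_re B z him] at hz
  have hz' : B.eval z.re = 0 := by exact_mod_cast hz
  rw [eval_eq_sum_range] at hz'
  have hpos : 0 < ∑ i ∈ Finset.range (B.natDegree + 1), B.coeff i * z.re ^ i := by
    apply Finset.sum_pos'
    · intro i _; exact mul_nonneg (hB.1 i) (by positivity)
    · exact ⟨B.natDegree, by simp, mul_pos hl (by positivity)⟩
  linarith

/-- strong log-concavity -/
def LC (a : ℕ → ℝ) : Prop := ∀ i j, i ≤ j → a i * a (j + 1) ≤ a (i + 1) * a j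

lemma LC_step {a b : ℕ → ℝ} (ha : ∀ i, 0 ≤ a i) (h : LC a) {ρ : ℝ} (hρ : 0 ≤ ρ)
    (hb0 : b 0 = ρ * a 0) (hb : ∀ i, b (i + 1) = a i + ρ * a (i + 1)) : LC b := by
  intro i j hij
  rcases j with _ | j
  · obtain rfl : i = 0 := by omega
    exact (mul_comm _ _).le
  rcases i with _ | i
  · rw [hb0, hb, hb, hb]
    have h1 := h 0 (j + 1) (by omega)
    have h2 : 0 ≤ ρ ^ 2 * (a (0 + 1) * a (j + 1) - a 0 * a (j + 1 + 1)) := by
      apply mul_nonneg (by positivity); linarith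
    have h3 : 0 ≤ ρ * (a (0 + 1) * a j) := mul_nonneg hρ (mul_nonneg (ha _) (ha _))
    have h4 : 0 ≤ a 0 * a j := mul_nonneg (ha _) (ha _)
    linarith
  · rw [hb, hb, hb, hb]
    have h1 := h (i + 1) (j + 1) (by omega)
    have h2 : 0 ≤ ρ ^ 2 * (a (i + 1 + 1) * a (j + 1) - a (i + 1) * a (j + 1 + 1)) := by
      apply mul_nonneg (by positivity); linarith
    have h3 := h i j (by omega)
    have h4 : a i * a (j + 1 + 1) ≤ a (i + 1 + 1) * a j := by
      rcases Nat.eq_or_lt_of_le hij with h5 | h5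
      · obtain rfl : i = j := by omega
        exact (mul_comm _ _).le
      · exact (h i (j + 1) (by omega)).trans (h (i + 1) j (by omega))
    have h6 : 0 ≤ ρ * (a (i + 1 + 1) * a j - a i * a (j + 1 + 1)) := by
      apply mul_nonneg hρ; linarith
    linarith

lemma prod_LC (s : Multiset ℝ) : (∀ ρ ∈ s, 0 ≤ ρ) →
    (∀ i, 0 ≤ ((s.map (fun ρ => X + C ρ)).prod : ℝ[X]).coeff i) ∧
    LC (fun i => ((s.map (fun ρ => X + C ρ)).prod : ℝ[X]).coeff i) := by
  induction s using Multiset.induction_on with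
  | empty =>
    intro _
    simp only [Multiset.map_zero, Multiset.prod_zero]
    refine ⟨fun i => ?_, fun i j hij => ?_⟩
    · rw [coeff_one]; split_ifs <;> norm_num
    · simp [coeff_one]
  | cons ρ s ih =>
    intro hs
    have hρ := hs ρ (Multiset.mem_cons_self _ _)
    obtain ⟨h1, h2⟩ := ih (fun r hr => hs r (Multiset.mem_cons_of_mem hr))
    have e0 : (((ρ ::ₘ s).map (fun ρ => X + C ρ)).prod : ℝ[X]).coeff 0 =
        ρ * ((s.map (fun ρ => X + C ρ)).prod : ℝ[X]).coeff 0 := by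
      rw [Multiset.map_cons, Multiset.prod_cons, add_mul, coeff_add, coeff_X_mul_zero, coeff_C_mul, zero_add]
    have e1 : ∀ i, (((ρ ::ₘ s).map (fun ρ => X + C ρ)).prod : ℝ[X]).coeff (i + 1) =
        ((s.map (fun ρ => X + C ρ)).prod : ℝ[X]).coeff i + ρ * ((s.map (fun ρ => X + C ρ)).prod : ℝ[X]).coeff (i + 1) := by
      intro i
      rw [Multiset.map_cons, Multiset.prod_cons, add_mul, coeff_add, coeff_X_mul, coeff_C_mul]
    refine ⟨fun i => ?_, LC_step h1 h2 hρ e0 e1⟩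
    rcases i with _ | i
    · rw [e0]; exact mul_nonneg hρ (h1 _)
    · rw [e1]; exact add_nonneg (h1 _) (mul_nonneg hρ (h1 _))

theorem logconc {B : ℝ[X]} (hB : RR B) (k : ℕ) : B.coeff k * B.coeff (k + 2) ≤ (B.coeff (k + 1)) ^ 2 := by
  obtain ⟨c, hc, s, hs, rfl⟩ := RR_factor hB
  have h := (prod_LC s hs).2 k (k + 1) (by omega)
  simp only [coeff_C_mul]
  have h2 := mul_le_mul_of_nonneg_left h (by positivity : 0 ≤ c ^ 2)
  show _ * (c * ((s.map (fun ρ => X + C ρ)).prod : ℝ[X]).coeff (k + 1 + 1)) ≤ _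
  nlinarith

lemma factor_ineq {q y ρ : ℝ} (hq : 1 < q) (hy : 0 < y) (hy1 : y ≤ 1) (hρ : 0 ≤ ρ) :
    (((q + ρ) * (q⁻¹ + ρ)) / (1 + ρ) ^ 2) ^ y ≤ ((y * q + ρ) * (y / q + ρ)) / (y + ρ) ^ 2 := by
  have hq0 : 0 < q := by linarith
  set κ := q + q⁻¹ - 2 with hκ
  have hκ0 : 0 ≤ κ := by
    have : q * κ = (q - 1) ^ 2 := by rw [hκ]; field_simp; ring
    have h2 : 0 ≤ q * κ := by rw [this]; positivity
    exact nonneg_of_mul_nonneg_right h2 hq0
  have e1 : ((q + ρ) * (q⁻¹ + ρ)) / (1 + ρ) ^ 2 = 1 + ρ * κ / (1 + ρ) ^ 2 := by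
    rw [eq_comm, ← sub_eq_zero]
    have h1 : (1 + ρ) ≠ 0 := by positivity
    rw [hκ]; field_simp; ring
  have e2 : ((y * q + ρ) * (y / q + ρ)) / (y + ρ) ^ 2 = 1 + y * (ρ * κ / (y + ρ) ^ 2) := by
    have h1 : (y + ρ) ≠ 0 := by positivity
    rw [hκ]; field_simp; ring
  rw [e1, e2]
  have h3 : 0 ≤ ρ * κ / (1 + ρ) ^ 2 := by positivity
  refine (rpow_one_add_le_one_add_mul_self (by linarith) hy.le hy1).trans ?_
  have h4 : ρ * κ / (1 + ρ) ^ 2 ≤ ρ * κ / (y + ρ) ^ 2 := by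
    apply div_le_div_of_nonneg_left (by positivity) (by positivity)
    gcongr
  have := mul_le_mul_of_nonneg_left h4 hy.le
  linarith

lemma prod_pos (s : Multiset ℝ) (hs : ∀ ρ ∈ s, 0 ≤ ρ) {t : ℝ} (ht : 0 < t) :
    0 < ((s.map (fun ρ => X + C ρ)).prod : ℝ[X]).eval t := by
  induction s using Multiset.induction_on with
  | empty => simp
  | cons ρ s ih =>
    rw [Multiset.map_cons, Multiset.prod_cons, eval_mul]
    apply mul_pos
    · have := hs ρ (Multiset.mem_cons_self _ _)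
      simp; linarith
    · exact ih (fun r hr => hs r (Multiset.mem_cons_of_mem hr))

lemma prod_Rineq {q y : ℝ} (hq : 1 < q) (hy : 0 < y) (hy1 : y ≤ 1) (s : Multiset ℝ) : (∀ ρ ∈ s, 0 ≤ ρ) →
    ((((s.map (fun ρ => X + C ρ)).prod : ℝ[X]).eval q * ((s.map (fun ρ => X + C ρ)).prod : ℝ[X]).eval q⁻¹) /
      (((s.map (fun ρ => X + C ρ)).prod : ℝ[X]).eval 1) ^ 2) ^ y ≤
    (((s.map (fun ρ => X + C ρ)).prod : ℝ[X]).eval (y * q) * ((s.map (fun ρ => X + C ρ)).prod : ℝ[X]).eval (y / q)) /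
      (((s.map (fun ρ => X + C ρ)).prod : ℝ[X]).eval y) ^ 2 := by
  have hq0 : 0 < q := by linarith
  induction s using Multiset.induction_on with
  | empty => intro _; simp
  | cons ρ s ih =>
    intro hs
    have hρ := hs ρ (Multiset.mem_cons_self _ _)
    have hs' : ∀ r ∈ s, 0 ≤ r := fun r hr => hs r (Multiset.mem_cons_of_mem hr)
    have h1 := ih hs'
    have h2 := factor_ineq hq hy hy1 hρ
    simp only [Multiset.map_cons, Multiset.prod_cons, eval_mul, eval_add, eval_X, eval_C]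
    set P : ℝ[X] := (s.map (fun ρ => X + C ρ)).prod with hP
    have p1 := prod_pos s hs' hq0
    have p2 := prod_pos s hs' (inv_pos.2 hq0)
    have p3 := prod_pos s hs' one_pos
    have p4 := prod_pos s hs' hy
    have p5 := prod_pos s hs' (mul_pos hy hq0)
    have p6 := prod_pos s hs' (div_pos hy hq0)
    rw [← hP] at p1 p2 p3 p4 p5 p6
    have e1 : ((q + ρ) * P.eval q * ((q⁻¹ + ρ) * P.eval q⁻¹)) / ((1 + ρ) * P.eval 1) ^ 2 =
        (((q + ρ) * (q⁻¹ + ρ)) / (1 + ρ) ^ 2) * ((P.eval q * P.eval q⁻¹) / (P.eval 1) ^ 2) := by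
      rw [mul_pow, div_mul_div_comm]; congr 1; ring
    have e2 : ((y * q + ρ) * P.eval (y * q) * ((y / q + ρ) * P.eval (y / q))) / ((y + ρ) * P.eval y) ^ 2 =
        (((y * q + ρ) * (y / q + ρ)) / (y + ρ) ^ 2) * ((P.eval (y * q) * P.eval (y / q)) / (P.eval y) ^ 2) := by
      rw [mul_pow, div_mul_div_comm]; congr 1; ring
    rw [e1, e2, Real.mul_rpow (by positivity) (by positivity)]
    exact mul_le_mul h2 h1 (by positivity) (by positivity)

theorem Rineq {B : ℝ[X]} (hB : RR B) (h0 : 0 < B.coeff 0) {q y : ℝ} (hq : 1 < q) (hy : 0 < y) (hy1 : y ≤ 1) :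
    ((B.eval q * B.eval q⁻¹) / (B.eval 1) ^ 2) ^ y ≤ (B.eval (y * q) * B.eval (y / q)) / (B.eval y) ^ 2 := by
  obtain ⟨c, hc, s, hs, rfl⟩ := RR_factor hB
  have h := prod_Rineq hq hy hy1 s hs
  simp only [eval_mul, eval_C]
  set P : ℝ[X] := (s.map (fun ρ => X + C ρ)).prod with hP
  have e1 : (c * P.eval q * (c * P.eval q⁻¹)) / (c * P.eval 1) ^ 2 = (P.eval q * P.eval q⁻¹) / (P.eval 1) ^ 2 := by
    rw [mul_pow, show c * P.eval q * (c * P.eval q⁻¹) = c ^ 2 * (P.eval q * P.eval q⁻¹) by ring,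
      mul_div_mul_left _ _ (by positivity)]
  have e2 : (c * P.eval (y * q) * (c * P.eval (y / q))) / (c * P.eval y) ^ 2 =
      (P.eval (y * q) * P.eval (y / q)) / (P.eval y) ^ 2 := by
    rw [mul_pow, show c * P.eval (y * q) * (c * P.eval (y / q)) = c ^ 2 * (P.eval (y * q) * P.eval (y / q)) by ring,
      mul_div_mul_left _ _ (by positivity)]
  rw [e1, e2]
  exact h

end Pool.Agent.H11P
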