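import Mathlib
import Pool.Agent.H11P.Defs

set_option autoImplicit false

namespace Pool.Agent.H11P

open Polynomial

namespace PC

theorem nn_mul {p q : ℝ[X]} (hp : ∀ j, 0 ≤ p.coeff j) (hq : ∀ j, 0 ≤ q.coeff j) :
    ∀ j, 0 ≤ (p * q).coeff j := by
  intro j
  rw [coeff_mul]
  exact Finset.sum_nonneg fun x _ => mul_nonneg (hp _) (hq _)

theorem nn_pow {p : ℝ[X]} (hp : ∀ j, 0 ≤ p.coeff j) (n : ℕ) : ∀ j, 0 ≤ (p ^ n).coeff j := by
  induction n with
  | zero =>
    intro j
    rw [pow_zero, coeff_one]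
    split_ifs <;> norm_num
  | succ n ih =>
    rw [pow_succ]
    exact nn_mul ih hp

theorem quad_real {τ : ℝ} (hτ : 2 ≤ τ) {z : ℂ} (hz : 1 + (τ : ℂ) * z + z ^ 2 = 0) : z.im = 0 := by
  have h1 := congrArg Complex.im hz
  have h2 := congrArg Complex.re hz
  simp [pow_two] at h1 h2
  by_contra hy
  have h3 : τ + 2 * z.re = 0 := by
    have : z.im * (τ + 2 * z.re) = 0 := by linarith
    rcases mul_eq_zero.mp this with h | h
    · exact absurd h hy
    · exact h
  have h4 : 0 < z.im ^ 2 := by positivity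
  nlinarith

noncomputable def pp (m : ℕ) : ℝ[X] := X ^ 2 * (X + 1) ^ (2 * m)

noncomputable def ff (m : ℕ) (τ : ℝ) : ℝ[X] := pp m * (1 + C τ * X + X ^ 2)

theorem ff_RR (m : ℕ) {τ : ℝ} (hτ : 2 ≤ τ) : RR (ff m τ) := by
  refine ⟨?_, ?_⟩
  · apply nn_mul
    · apply nn_mul
      · intro j; rw [coeff_X_pow]; split_ifs <;> norm_num
      · apply nn_pow
        intro j
        rw [coeff_add, coeff_X, coeff_one]
        split_ifs <;> norm_num
    · intro j
      rw [coeff_add, coeff_add, coeff_C_mul, coeff_X, coeff_one, coeff_X_pow]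
      split_ifs <;> simp <;> linarith
  · intro z hz
    unfold ff pp at hz
    simp only [map_mul, map_pow, map_add, aeval_X, map_one, aeval_C] at hz
    rcases mul_eq_zero.mp hz with h | h
    · rcases mul_eq_zero.mp h with h | h
      · have := pow_eq_zero_iff (two_ne_zero) |>.mp h
        rw [this]; rfl
      · have h0 : z + 1 = 0 := by
          by_contra h'
          exact pow_ne_zero _ h' h
        have : z = -1 := by linear_combination h0
        rw [this]; simp
    · apply quad_real hτ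
      rw [← h]
      rfl

theorem pp_coeff_ge (m j : ℕ) : (pp m).coeff (j + 2) = ((2 * m).choose j : ℝ) := by
  unfold pp
  rw [coeff_X_pow_mul, coeff_X_add_one_pow]

theorem pp_coeff_lt (m j : ℕ) (hj : j < 2) : (pp m).coeff j = 0 := by
  unfold pp
  rw [coeff_X_pow_mul', if_neg (by omega)]

theorem pp1 (m : ℕ) : (pp m).coeff (m + 1) = ((2 * m).choose (m + 1) : ℝ) := by
  rcases m with _ | m
  · rw [pp_coeff_lt _ _ (by norm_num)]; simp
  · rw [show m + 1 + 1 = m + 2 by ring, pp_coeff_ge]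
    congr 1
    rw [← Nat.choose_symm_of_eq_add]
    omega

theorem pp0 (m : ℕ) : (pp m).coeff m = ((2 * m).choose (m + 2) : ℝ) := by
  rcases m with _ | _ | m
  · rw [pp_coeff_lt _ _ (by norm_num)]; simp
  · rw [pp_coeff_lt _ _ (by norm_num)]; simp [Nat.choose]
  · rw [show m + 1 + 1 = m + 2 by ring, pp_coeff_ge]
    congr 1
    rw [← Nat.choose_symm_of_eq_add]
    omega

theorem ff_coeff (m : ℕ) (τ : ℝ) (j : ℕ) :
    (ff m τ).coeff (j + 2) = (pp m).coeff (j + 2) + τ * (pp m).coeff (j + 1) + (pp m).coeff j := by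
  unfold ff
  have h : pp m * (1 + C τ * X + X ^ 2) = pp m + C τ * (pp m * X) + pp m * X ^ 2 := by ring
  rw [h, coeff_add, coeff_add, coeff_C_mul, coeff_mul_X, coeff_mul_X_pow]

theorem solve (m : ℕ) {t : ℝ} (h1 : ((m : ℝ) + 2) ≤ t * (m + 1)) (h2 : t * m < m + 1) :
    ∃ τ : ℝ, 2 ≤ τ ∧ 0 < (ff m τ).coeff (m + 2) ∧
      (ff m τ).coeff (m + 3) = t * (ff m τ).coeff (m + 2) ∧
      (ff m τ).coeff (m + 4) = (ff m τ).coeff (m + 2) := by
  set c0 : ℝ := ((2 * m).choose m : ℝ) with hc0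
  set c1 : ℝ := ((2 * m).choose (m + 1) : ℝ) with hc1
  set c2 : ℝ := ((2 * m).choose (m + 2) : ℝ) with hc2
  have e0 : 0 < c0 := by
    rw [hc0]
    exact_mod_cast Nat.choose_pos (by omega)
  have e1 : ((m : ℝ) + 1) * c1 = m * c0 := by
    have := Nat.choose_succ_right_eq (2 * m) m
    have h3 : 2 * m - m = m := by omega
    rw [h3] at this
    have h4 : (((2 * m).choose (m + 1) * (m + 1) : ℕ) : ℝ) = (((2 * m).choose m * m : ℕ) : ℝ) := by
      rw [this]
    push_cast at h4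
    rw [hc0, hc1]
    linarith
  have e2 : ((m : ℝ) + 2) * c2 = (m - 1) * c1 := by
    rcases Nat.eq_zero_or_pos m with hm | hm
    · subst hm
      simp [hc1, hc2]
    · have := Nat.choose_succ_right_eq (2 * m) (m + 1)
      have h3 : 2 * m - (m + 1) = m - 1 := by omega
      rw [h3] at this
      have h4 : (((2 * m).choose (m + 1 + 1) * (m + 1 + 1) : ℕ) : ℝ) =
          (((2 * m).choose (m + 1) * (m - 1) : ℕ) : ℝ) := by
        rw [this]
      push_cast [Nat.cast_sub hm] at h4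
      rw [hc1, hc2]
      have h5 : m + 1 + 1 = m + 2 := by ring
      rw [h5] at h4
      linarith
  have hm0 : (0 : ℝ) ≤ m := Nat.cast_nonneg m
  have e1n : 0 ≤ c1 := Nat.cast_nonneg _
  have e2n : 0 ≤ c2 := Nat.cast_nonneg _
  have ht0 : 0 < t := by
    by_contra h
    push Not at h
    nlinarith
  have hD : 0 < c0 - t * c1 := by
    have : 0 < ((m : ℝ) + 1) * (c0 - t * c1) := by
      have : ((m : ℝ) + 1) * (c0 - t * c1) = (m + 1 - t * m) * c0 := by
        linear_combination (-t) * e1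
      rw [this]
      apply mul_pos _ e0
      linarith
    by_contra h
    push Not at h
    nlinarith
  have hge : 2 * c0 + 2 * c1 ≤ t * (c0 + 2 * c1 + c2) := by
    have h3 : ((m : ℝ) + 1) * (m + 2) * (2 * c0 + 2 * c1) = 2 * (2 * m + 1) * (m + 2) * c0 := by
      linear_combination (2 * ((m : ℝ) + 2)) * e1
    have h4 : ((m : ℝ) + 1) * (m + 2) * (t * (c0 + 2 * c1 + c2)) = t * (2 * (2 * m + 1) * (m + 1)) * c0 := by
      have h5 : ((m : ℝ) + 1) * ((m + 2) * c2) = (m - 1) * (m * c0) := by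
        rw [e2]; linear_combination ((m : ℝ) - 1) * e1
      linear_combination t * (2 * ((m : ℝ) + 2)) * e1 + t * h5
    have h6 : 2 * (2 * (m : ℝ) + 1) * (m + 2) * c0 ≤ t * (2 * (2 * m + 1) * (m + 1)) * c0 := by
      apply mul_le_mul_of_nonneg_right _ e0.le
      nlinarith
    have h7 : 0 < ((m : ℝ) + 1) * (m + 2) := by positivity
    have h8 : ((m : ℝ) + 1) * (m + 2) * (2 * c0 + 2 * c1) ≤
        ((m : ℝ) + 1) * (m + 2) * (t * (c0 + 2 * c1 + c2)) := by
      rw [h3, h4]; exact h6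
    exact le_of_mul_le_mul_left h8 h7
  refine ⟨(t * (c0 + c2) - 2 * c1) / (c0 - t * c1), ?_, ?_, ?_, ?_⟩
  · rw [le_div_iff₀ hD]
    linarith
  all_goals
    set τ : ℝ := (t * (c0 + c2) - 2 * c1) / (c0 - t * c1) with hτ
    have hτ2 : 2 ≤ τ := by
      rw [hτ, le_div_iff₀ hD]
      linarith
    have hτe : τ * (c0 - t * c1) = t * (c0 + c2) - 2 * c1 := div_mul_cancel₀ _ hD.ne'
    have k0 : (ff m τ).coeff (m + 2) = c0 + τ * c1 + c2 := by
      rw [ff_coeff, pp_coeff_ge, pp1, pp0]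
    have k1 : (ff m τ).coeff (m + 3) = c1 + τ * c0 + c1 := by
      have := ff_coeff m τ (m + 1)
      rw [show m + 1 + 2 = m + 3 by ring, show m + 1 + 1 = m + 2 by ring] at this
      rw [this, pp_coeff_ge, pp1, pp_coeff_ge]
    have k2 : (ff m τ).coeff (m + 4) = c2 + τ * c1 + c0 := by
      have := ff_coeff m τ (m + 2)
      rw [show m + 2 + 2 = m + 4 by ring, show m + 2 + 1 = m + 1 + 2 by ring, pp_coeff_ge] at this
      rw [this, pp_coeff_ge, pp_coeff_ge]
  · rw [k0]
    have : 0 ≤ τ * c1 := mul_nonneg (by linarith) e1n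
    linarith
  · rw [k0, k1]
    linear_combination hτe
  · rw [k0, k2]
    ring

theorem exists_m {t : ℝ} (ht : 1 < t) :
    ∃ m : ℕ, ((m : ℝ) + 2) ≤ t * (m + 1) ∧ t * m < m + 1 := by
  have hex : ∃ m : ℕ, ((m : ℝ) + 2) ≤ t * (m + 1) := by
    obtain ⟨m, hm⟩ := exists_nat_gt (1 / (t - 1))
    refine ⟨m, ?_⟩
    rw [div_lt_iff₀ (by linarith)] at hm
    nlinarith
  classical
  refine ⟨Nat.find hex, Nat.find_spec hex, ?_⟩
  rcases Nat.eq_zero_or_pos (Nat.find hex) with h | h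
  · rw [h]; simp
  · have := Nat.find_min hex (m := Nat.find hex - 1) (by omega)
    push Not at this
    rw [Nat.cast_sub h] at this
    push_cast at this
    nlinarith

end PC

open PC in
/-- PART C -/
theorem exist_abc {a b c : ℝ} (ha : 0 < a) (hb : 0 < b) (hc : 0 < c) (h : a * c < b ^ 2) :
    ∃ f : ℝ[X], ∃ k, RR f ∧ f.coeff k = a ∧ f.coeff (k + 1) = b ∧ f.coeff (k + 2) = c := by
  set μ : ℝ := Real.sqrt (c / a) with hμ
  have hμ0 : 0 < μ := Real.sqrt_pos.mpr (by positivity)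
  have hμ2 : μ ^ 2 * a = c := by
    rw [hμ, Real.sq_sqrt (by positivity)]
    field_simp
  set t : ℝ := b / (a * μ) with ht
  have haμ : 0 < a * μ := by positivity
  have htb : t * (a * μ) = b := div_mul_cancel₀ _ haμ.ne'
  have ht1 : 1 < t := by
    rw [ht, lt_div_iff₀ haμ, one_mul]
    apply lt_of_pow_lt_pow_left₀ 2 hb.le
    calc (a * μ) ^ 2 = a * (μ ^ 2 * a) := by ring
      _ = a * c := by rw [hμ2]
      _ < b ^ 2 := h
  obtain ⟨m, hm1, hm2⟩ := exists_m ht1
  obtain ⟨τ, hτ, k0, k1, k2⟩ := solve m hm1 hm2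
  set u : ℝ := (ff m τ).coeff (m + 2) with hu
  have hlam : 0 < a / (μ ^ (m + 2) * u) := by positivity
  set lam : ℝ := a / (μ ^ (m + 2) * u) with hl
  have hlu : lam * (u * μ ^ (m + 2)) = a := by
    rw [hl, mul_comm u]
    exact div_mul_cancel₀ _ (by positivity)
  refine ⟨C lam * (ff m τ).comp (C μ * X), m + 2, ⟨?_, ?_⟩, ?_, ?_, ?_⟩
  · intro j
    rw [coeff_C_mul, comp_C_mul_X_coeff]
    exact mul_nonneg hlam.le (mul_nonneg ((ff_RR m hτ).1 j) (by positivity))
  · intro z hz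
    rw [map_mul, aeval_C, aeval_comp] at hz
    rcases mul_eq_zero.mp hz with h1 | h1
    · exfalso
      have : (lam : ℂ) = 0 := h1
      exact hlam.ne' (by exact_mod_cast this)
    · have h2 := (ff_RR m hτ).2 _ h1
      simp only [map_mul, aeval_C, aeval_X] at h2
      have h3 : (((μ : ℂ)) * z).im = 0 := h2
      rw [Complex.im_ofReal_mul] at h3
      rcases mul_eq_zero.mp h3 with h4 | h4
      · exact absurd h4 hμ0.ne'
      · exact h4
  · rw [coeff_C_mul, comp_C_mul_X_coeff]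
    exact hlu
  · rw [coeff_C_mul, comp_C_mul_X_coeff, show m + 2 + 1 = m + 3 by ring, k1, pow_succ' μ (m + 2)]
    calc lam * (t * u * (μ * μ ^ (m + 2))) = t * ((lam * (u * μ ^ (m + 2))) * μ) := by ring
      _ = b := by rw [hlu, htb]
  · rw [coeff_C_mul, comp_C_mul_X_coeff, show m + 2 + 2 = m + 4 by ring, k2]
    calc lam * (u * μ ^ (m + 4)) = μ ^ 2 * (lam * (u * μ ^ (m + 2))) := by ring
      _ = c := by rw [hlu, hμ2]

end Pool.Agent.H11P
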