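import Mathlib

namespace Pool.Agent.H11P.D

open Finset

lemma ch_rec (N k : ℕ) (h : k ≤ N) : ((Nat.choose N (k+1) : ℕ) : ℝ) * (k+1) = (Nat.choose N k : ℝ) * (N - k) := by
  have := Nat.choose_succ_right_eq N k
  have h2 : ((Nat.choose N (k+1) * (k+1) : ℕ) : ℝ) = ((Nat.choose N k * (N - k) : ℕ) : ℝ) := by
    exact_mod_cast this
  push_cast [Nat.cast_sub h] at h2
  exact h2

lemma stepA {N k0 k : ℕ} (hN : N = 4 * k0) (hk : k < k0) :
    3 * (Nat.choose N k : ℝ) ≤ Nat.choose N (k+1) := by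
  have h := ch_rec N k (by omega)
  have hpos : (0:ℝ) ≤ Nat.choose N k := by positivity
  have hk1 : (0:ℝ) < (k:ℝ) + 1 := by positivity
  have hNr : (N:ℝ) = 4 * k0 := by exact_mod_cast hN
  have hkr : (k:ℝ) + 1 ≤ k0 := by exact_mod_cast hk
  nlinarith [mul_nonneg hpos (by linarith : (0:ℝ) ≤ (N:ℝ) - k - 3 * (k + 1))]

lemma stepB {N k0 k : ℕ} (hN : N = 4 * k0) (hk : k0 ≤ k) :
    (Nat.choose N (k+1) : ℝ) ≤ 3 * Nat.choose N k := by
  by_cases hkN : k ≤ N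
  · have h := ch_rec N k hkN
    have hpos : (0:ℝ) ≤ Nat.choose N k := by positivity
    have hk1 : (0:ℝ) < (k:ℝ) + 1 := by positivity
    have hNr : (N:ℝ) = 4 * k0 := by exact_mod_cast hN
    have hkr : (k0:ℝ) ≤ k := by exact_mod_cast hk
    nlinarith [mul_nonneg hpos (by linarith : (0:ℝ) ≤ 3 * ((k:ℝ) + 1) - (N - k))]
  · rw [Nat.choose_eq_zero_of_lt (by omega)]
    simp

lemma stepC {N k : ℕ} (hk : 3 * k + 2 ≤ N) :
    2 * (Nat.choose N k : ℝ) ≤ Nat.choose N (k+1) := by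
  have h := ch_rec N k (by omega)
  have hpos : (0:ℝ) ≤ Nat.choose N k := by positivity
  have hk1 : (0:ℝ) < (k:ℝ) + 1 := by positivity
  have hkr : 3 * (k:ℝ) + 2 ≤ N := by exact_mod_cast hk
  nlinarith [mul_nonneg hpos (by linarith : (0:ℝ) ≤ (N:ℝ) - k - 2 * (k + 1))]

lemma manyA {N k0 : ℕ} (hN : N = 4 * k0) : ∀ d k : ℕ, k + d = k0 →
    (3:ℝ) ^ d * (Nat.choose N k : ℝ) ≤ Nat.choose N k0 := by
  intro d
  induction d with
  | zero => intro k hk; simp at hk; subst hk; simp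
  | succ d ih =>
    intro k hk
    have h1 := ih (k+1) (by omega)
    have h2 := stepA hN (by omega : k < k0)
    calc (3:ℝ)^(d+1) * (Nat.choose N k : ℝ) = 3^d * (3 * Nat.choose N k) := by ring
      _ ≤ 3^d * Nat.choose N (k+1) := by gcongr
      _ ≤ _ := h1

lemma manyB {N k0 k1 : ℕ} (hN : N = 4 * k0) (hk : k0 ≤ k1) : ∀ d : ℕ,
    (Nat.choose N (k1 + d) : ℝ) ≤ 3 ^ d * Nat.choose N k1 := by
  intro d
  induction d with
  | zero => simp
  | succ d ih =>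
    have h2 := stepB hN (by omega : k0 ≤ k1 + d)
    calc (Nat.choose N (k1 + (d+1)) : ℝ) ≤ 3 * Nat.choose N (k1 + d) := h2
      _ ≤ 3 * (3 ^ d * Nat.choose N k1) := by gcongr
      _ = _ := by ring

lemma manyC {N k0 : ℕ} : ∀ M : ℕ, 3 * (k0 + M) ≤ N + 1 →
    (2:ℝ) ^ M * (Nat.choose N k0 : ℝ) ≤ Nat.choose N (k0 + M) := by
  intro M
  induction M with
  | zero => simp
  | succ M ih =>
    intro h
    have h1 := ih (by omega)
    have h2 := stepC (by omega : 3 * (k0 + M) + 2 ≤ N)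
    calc (2:ℝ)^(M+1) * (Nat.choose N k0 : ℝ) = 2 * (2^M * Nat.choose N k0) := by ring
      _ ≤ 2 * Nat.choose N (k0 + M) := by gcongr
      _ ≤ _ := h2

/-- near the middle -/
lemma manyD {j : ℕ} (hj : 1 ≤ j) : ∀ d : ℕ, d ≤ j →
    (Nat.choose (8*j^2) (4*j^2 - j + d) : ℝ) ≤ (1 + 1/(j:ℝ)) ^ d * Nat.choose (8*j^2) (4*j^2 - j) := by
  intro d
  induction d with
  | zero => simp
  | succ d ih =>
    intro hd
    have h1 := ih (by omega)
    have hjj : j ≤ 4 * j^2 := by nlinarith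
    have hrec := ch_rec (8*j^2) (4*j^2 - j + d) (by omega)
    have hjr : (1:ℝ) ≤ j := by exact_mod_cast hj
    have hdr : (0:ℝ) ≤ d := by positivity
    have hdj : (d:ℝ) + 1 ≤ j := by exact_mod_cast hd
    have hcast : (((4*j^2 - j + d : ℕ)) : ℝ) = 4*(j:ℝ)^2 - j + d := by
      push_cast [Nat.cast_sub hjj]; ring
    have hcast2 : (((8*j^2 : ℕ)) : ℝ) = 8*(j:ℝ)^2 := by push_cast; ring
    rw [hcast, hcast2] at hrec
    set X := (Nat.choose (8*j^2) (4*j^2 - j + d) : ℝ) with hX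
    have hX0 : 0 ≤ X := by positivity
    have hden : (0:ℝ) < 4*(j:ℝ)^2 - j + d + 1 := by nlinarith
    have hstep : (Nat.choose (8*j^2) (4*j^2 - j + d + 1) : ℝ) ≤ (1 + 1/(j:ℝ)) * X := by
      have hkey : 8*(j:ℝ)^2 - (4*(j:ℝ)^2 - j + d) ≤ (1 + 1/(j:ℝ)) * (4*(j:ℝ)^2 - j + d + 1) := by
        have h3 : (1 + 1/(j:ℝ)) * (4*(j:ℝ)^2 - j + d + 1) =
            (4*(j:ℝ)^2 - j + d + 1) + (4*(j:ℝ) - 1 + (d+1)/j) := by
          field_simp
          ring
        rw [h3]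
        have : 0 ≤ ((d:ℝ)+1)/j := by positivity
        nlinarith
      have h4 : (Nat.choose (8*j^2) (4*j^2 - j + d + 1) : ℝ) * (4*(j:ℝ)^2 - j + d + 1)
          ≤ ((1 + 1/(j:ℝ)) * X) * (4*(j:ℝ)^2 - j + d + 1) := by
        rw [hrec]
        calc X * (8*(j:ℝ)^2 - (4*(j:ℝ)^2 - j + d)) ≤ X * ((1 + 1/(j:ℝ)) * (4*(j:ℝ)^2 - j + d + 1)) := by
              gcongr
          _ = _ := by ring
      exact le_of_mul_le_mul_right h4 hden
    have hpos : (0:ℝ) ≤ 1 + 1/(j:ℝ) := by positivity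
    calc (Nat.choose (8*j^2) (4*j^2 - j + (d+1)) : ℝ) ≤ (1 + 1/(j:ℝ)) * X := hstep
      _ ≤ (1 + 1/(j:ℝ)) * ((1 + 1/(j:ℝ)) ^ d * Nat.choose (8*j^2) (4*j^2 - j)) := by gcongr
      _ = _ := by ring

lemma midD {j : ℕ} (hj : 1 ≤ j) :
    (Nat.choose (8*j^2) (4*j^2) : ℝ) ≤ Real.exp 1 * Nat.choose (8*j^2) (4*j^2 - j) := by
  have h := manyD hj j le_rfl
  have hjj : j ≤ 4 * j^2 := by nlinarith
  rw [Nat.sub_add_cancel hjj] at h
  refine h.trans ?_
  have hjr : (0:ℝ) < j := by exact_mod_cast hj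
  have : (1 + 1/(j:ℝ))^j ≤ Real.exp 1 := by
    calc (1 + 1/(j:ℝ))^j ≤ (Real.exp (1/(j:ℝ)))^j := by
          gcongr
          have := Real.add_one_le_exp (1/(j:ℝ)); linarith
      _ = Real.exp 1 := by
          rw [← Real.exp_nat_mul]; congr 1; field_simp
  gcongr

/-- upper estimate -/
lemma upper {b : ℕ → ℝ} {N k0 M : ℕ} (hb : ∀ k, 0 ≤ b k) {y q : ℝ} (hy : 0 < y) (hq : 1 < q)
    (hk1 : k0 + M ≤ N)
    (H1 : ∀ k, k0 + M ≤ k → k ≤ N → b k * (y*q)^k ≤ b (k0+M) * (y*q)^(k0+M))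
    (H2 : ∀ k, k ≤ k0 → b k * (y/q)^k ≤ b k0 * (y/q)^k0) :
    (∑ k ∈ range (N+1), b k * (y*q)^k) * (∑ k ∈ range (N+1), b k * (y/q)^k)
      ≤ ((N:ℝ)+1)^2 * (∑ k ∈ range (N+1), b k * y^k)^2 * q^M := by
  set S := ∑ k ∈ range (N+1), b k * y^k with hS
  have hS0 : 0 ≤ S := Finset.sum_nonneg (fun k _ => mul_nonneg (hb k) (by positivity))
  have hterm : ∀ k, k ≤ N → b k * y^k ≤ S := by
    intro k hk
    exact Finset.single_le_sum (f := fun k => b k * y^k) (fun k _ => mul_nonneg (hb k) (by positivity))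
      (by simp; omega)
  have hq0 : 0 < q := by linarith
  have t1 : ∀ k, k ≤ k0 + M → b k * (y*q)^k ≤ S * q^(k0+M) := by
    intro k hk
    have h1 := hterm k (by omega)
    have h2 : q^k ≤ q^(k0+M) := pow_le_pow_right₀ hq.le hk
    calc b k * (y*q)^k = (b k * y^k) * q^k := by rw [mul_pow]; ring
      _ ≤ S * q^(k0+M) := by
        apply mul_le_mul h1 h2 (by positivity) hS0
  have t2 : ∀ k, k0 ≤ k → k ≤ N → b k * (y/q)^k ≤ S / q^k0 := by
    intro k hk hkN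
    have h1 := hterm k hkN
    have h2 : q^k0 ≤ q^k := pow_le_pow_right₀ hq.le hk
    calc b k * (y/q)^k = (b k * y^k) / q^k := by rw [div_pow]; ring
      _ ≤ S / q^k := by gcongr
      _ ≤ S / q^k0 := by gcongr
  have e1 : (∑ k ∈ range (N+1), b k * (y*q)^k) ≤ ((N:ℝ)+1) * (S * q^(k0+M)) := by
    have := Finset.sum_le_card_nsmul (range (N+1)) (fun k => b k * (y*q)^k) (S * q^(k0+M)) (by
      intro k hk
      have hkN : k ≤ N := by simp at hk; omega
      by_cases h : k ≤ k0 + M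
      · exact t1 k h
      · exact (H1 k (by omega) hkN).trans (t1 _ le_rfl))
    simpa using this
  have e2 : (∑ k ∈ range (N+1), b k * (y/q)^k) ≤ ((N:ℝ)+1) * (S / q^k0) := by
    have := Finset.sum_le_card_nsmul (range (N+1)) (fun k => b k * (y/q)^k) (S / q^k0) (by
      intro k hk
      have hkN : k ≤ N := by simp at hk; omega
      by_cases h : k0 ≤ k
      · exact t2 k h hkN
      · exact (H2 k (by omega)).trans (t2 _ le_rfl (by omega)))
    simpa using this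
  have e20 : 0 ≤ (∑ k ∈ range (N+1), b k * (y/q)^k) :=
    Finset.sum_nonneg (fun k _ => mul_nonneg (hb k) (by positivity))
  calc _ ≤ (((N:ℝ)+1) * (S * q^(k0+M))) * (((N:ℝ)+1) * (S / q^k0)) := by
        apply mul_le_mul e1 e2 e20 (by positivity)
    _ = _ := by
        rw [pow_add]; field_simp

/-- lower estimate -/
lemma lower {b : ℕ → ℝ} {N m j : ℕ} (hb : ∀ k, k ≤ N → 0 < b k) {q : ℝ} (hq : 1 < q) {K : ℝ}
    (hK : 0 < K) (hjm : j ≤ m) (hmN : m + j ≤ N)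
    (hmax : ∀ k, k ≤ N → b k ≤ b m) (h1 : b m ≤ K * b (m - j)) (h2 : b m ≤ K * b (m + j)) :
    q^(2*j) / (K^2 * ((N:ℝ)+1)^2) ≤
      ((∑ k ∈ range (N+1), b k * q^k) * (∑ k ∈ range (N+1), b k * q⁻¹^k)) /
        (∑ k ∈ range (N+1), b k * 1^k)^2 := by
  have hq0 : 0 < q := by linarith
  have hbm := hb m (by omega)
  have p1 : b (m+j) * q^(m+j) ≤ ∑ k ∈ range (N+1), b k * q^k :=
    Finset.single_le_sum (f := fun k => b k * q^k)
      (fun k hk => mul_nonneg (hb k (by simp at hk; omega)).le (by positivity)) (by simp; omega)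
  have p2 : b (m-j) * q⁻¹^(m-j) ≤ ∑ k ∈ range (N+1), b k * q⁻¹^k :=
    Finset.single_le_sum (f := fun k => b k * q⁻¹^k)
      (fun k hk => mul_nonneg (hb k (by simp at hk; omega)).le (by positivity)) (by simp; omega)
  have p3 : (∑ k ∈ range (N+1), b k * 1^k) ≤ ((N:ℝ)+1) * b m := by
    have := Finset.sum_le_card_nsmul (range (N+1)) (fun k => b k * 1^k) (b m) (by
      intro k hk
      have := hmax k (by simp at hk; omega)
      simpa using this)
    simpa using this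
  have p30 : 0 < (∑ k ∈ range (N+1), b k * 1^k) := by
    apply Finset.sum_pos (fun k hk => mul_pos (hb k (by simp at hk; omega)) (by positivity)) (by simp)
  have hb1 := hb (m+j) hmN
  have hb2 := hb (m-j) (by omega)
  have hpow : q^(m+j) * q⁻¹^(m-j) = q^(2*j) := by
    rw [inv_pow]
    have : m + j = (m - j) + 2*j := by omega
    rw [this, pow_add]
    field_simp
  have hnum : b (m+j) * b (m-j) * q^(2*j) ≤ (∑ k ∈ range (N+1), b k * q^k) * (∑ k ∈ range (N+1), b k * q⁻¹^k) := by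
    calc b (m+j) * b (m-j) * q^(2*j) = (b (m+j) * q^(m+j)) * (b (m-j) * q⁻¹^(m-j)) := by
          rw [← hpow]; ring
      _ ≤ _ := by
        apply mul_le_mul p1 p2 (by positivity)
        exact Finset.sum_nonneg (fun k hk => mul_nonneg (hb k (by simp at hk; omega)).le (by positivity))
  rw [div_le_div_iff₀ (by positivity) (by positivity)]
  have hsq : (∑ k ∈ range (N+1), b k * 1^k)^2 ≤ (((N:ℝ)+1) * b m)^2 := by
    gcongr
  have hbmm : b m * b m ≤ (K * b (m+j)) * (K * b (m-j)) := by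
    apply mul_le_mul h2 h1 hbm.le (by positivity)
  calc q^(2*j) * (∑ k ∈ range (N+1), b k * 1^k)^2 ≤ q^(2*j) * (((N:ℝ)+1) * b m)^2 := by gcongr
    _ = q^(2*j) * ((N:ℝ)+1)^2 * (b m * b m) := by ring
    _ ≤ q^(2*j) * ((N:ℝ)+1)^2 * ((K * b (m+j)) * (K * b (m-j))) := by gcongr
    _ = (b (m+j) * b (m-j) * q^(2*j)) * (K^2 * ((N:ℝ)+1)^2) := by ring
    _ ≤ _ := by gcongr

end Pool.Agent.H11P.D
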