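import Mathlib
import Pool.Agent.H11P.D1

namespace Pool.Agent.H11P.D

open Finset

/-- exponential beats polynomial, in the form needed -/
lemma growth {q y M K : ℝ} (hq : 1 < q) (hy : 0 < y) (hK : 0 < K) (hM : 0 ≤ M) (n0 : ℕ) :
    ∃ n : ℕ, n0 ≤ n ∧ 1 ≤ n ∧
      (8 * ((n:ℝ)^2)^2 + 1)^2 * q^M < (q^(2*(n:ℝ)^2) / (K^2 * (8 * ((n:ℝ)^2)^2 + 1)^2))^y := by
  have hq0 : 0 < q := by linarith
  have hlq : 0 < Real.log q := Real.log_pos hq
  -- choose n large
  obtain ⟨n, hn⟩ := exists_nat_ge (max (n0:ℝ) (max 1 (((2+2*y)*8 + |M * Real.log q + 2*y*Real.log K| + 1) / (2*y*Real.log q))))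
  have h1 : (n0:ℝ) ≤ n := le_trans (le_max_left _ _) hn
  have h2 : (1:ℝ) ≤ n := le_trans (le_trans (le_max_left _ _) (le_max_right _ _)) hn
  have h3 : ((2+2*y)*8 + |M * Real.log q + 2*y*Real.log K| + 1) / (2*y*Real.log q) ≤ n :=
    le_trans (le_trans (le_max_right _ _) (le_max_right _ _)) hn
  refine ⟨n, by exact_mod_cast h1, by exact_mod_cast h2, ?_⟩
  have hnpos : (0:ℝ) < n := by linarith
  set T : ℝ := 8 * ((n:ℝ)^2)^2 + 1 with hT
  have hTpos : 0 < T := by positivity
  have hlogT : Real.log T ≤ 8 * n := by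
    have hle : T ≤ (2*(n:ℝ))^4 := by
      rw [hT]
      have : (1:ℝ) ≤ (n:ℝ)^4 := one_le_pow₀ h2
      nlinarith
    calc Real.log T ≤ Real.log ((2*(n:ℝ))^4) := Real.log_le_log hTpos hle
      _ = 4 * Real.log (2*(n:ℝ)) := by rw [Real.log_pow]; norm_num
      _ ≤ 4 * (2*(n:ℝ)) := by
        have := Real.log_le_self (by positivity : (0:ℝ) ≤ 2*(n:ℝ)); linarith
      _ = 8 * n := by ring
  have hL : 0 < T^2 * q^M := by positivity
  have hR : 0 < (q^(2*(n:ℝ)^2) / (K^2 * T^2)) := by positivity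
  rw [← Real.log_lt_log_iff hL (Real.rpow_pos_of_pos hR _), Real.log_rpow hR,
    Real.log_mul (by positivity) (by positivity), Real.log_div (by positivity) (by positivity),
    Real.log_mul (by positivity) (by positivity), Real.log_rpow hq0, Real.log_rpow hq0, Real.log_pow,
    Real.log_pow]
  push_cast
  rw [div_le_iff₀ (by positivity)] at h3
  have habs := le_abs_self (M * Real.log q + 2*y*Real.log K)
  have hlT0 : 0 ≤ Real.log T := Real.log_nonneg (by rw [hT]; nlinarith [sq_nonneg ((n:ℝ)^2)])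
  have h5 : (2+2*y) * Real.log T ≤ (2+2*y)*(8*n) := by gcongr
  have h6 : (|M * Real.log q + 2*y*Real.log K| + 1) ≤ (|M * Real.log q + 2*y*Real.log K| + 1) * n := by
    have : 0 ≤ |M * Real.log q + 2*y*Real.log K| + 1 := by positivity
    nlinarith
  have h7 : ((2+2*y)*8 + |M * Real.log q + 2*y*Real.log K| + 1) * n ≤ (n * (2*y*Real.log q)) * n := by
    gcongr
  nlinarith

lemma choose_mono_half {N k l : ℕ} (hkl : k ≤ l) (hl : l ≤ N / 2) :
    Nat.choose N k ≤ Nat.choose N l := by
  induction l, hkl using Nat.le_induction with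
  | base => exact le_rfl
  | succ l hl' ih =>
    exact (ih (by omega)).trans (Nat.choose_le_succ_of_lt_half_left (by omega))

/-- the kink estimate -/
theorem kink {G : ℝ → ℝ} (hmono : Monotone G)
    (hc : ∀ p q r, p < q → q < r → (G r - G q)/(r - q) ≤ (G q - G p)/(q - p))
    (hR : ∀ (N : ℕ) (A : ℝ), 0 < A → ∀ q y : ℝ, 1 < q → 0 < y → y ≤ 1 →
      (((∑ k ∈ range (N+1), Real.exp (G (Real.log (A * Nat.choose N k))) * q^k) *
        (∑ k ∈ range (N+1), Real.exp (G (Real.log (A * Nat.choose N k))) * q⁻¹^k)) /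
        (∑ k ∈ range (N+1), Real.exp (G (Real.log (A * Nat.choose N k))) * 1^k)^2)^y ≤
      ((∑ k ∈ range (N+1), Real.exp (G (Real.log (A * Nat.choose N k))) * (y*q)^k) *
        (∑ k ∈ range (N+1), Real.exp (G (Real.log (A * Nat.choose N k))) * (y/q)^k)) /
        (∑ k ∈ range (N+1), Real.exp (G (Real.log (A * Nat.choose N k))) * y^k)^2)
    {p q0 r : ℝ} (hpq : p < q0) (hqr : q0 < r) :
    (G q0 - G p)/(q0 - p) ≤ (G r - G q0)/(r - q0) := by
  by_contra hcon
  push Not at hcon
  set α := (G r - G q0)/(r - q0) with hα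
  set β := (G q0 - G p)/(q0 - p) with hβ
  have hα0 : 0 ≤ α := div_nonneg (by linarith [hmono hqr.le]) (by linarith)
  have hleft : ∀ s, s ≤ p → G s ≤ G p - β * (p - s) := by
    intro s hs
    rcases hs.lt_or_eq with h | h
    · have := hc s p q0 h hpq
      rw [← hβ, le_div_iff₀ (by linarith)] at this
      linarith
    · subst h; simp
  have hright : ∀ t t', r ≤ t → t ≤ t' → G t' ≤ G t + α * (t' - t) := by
    intro t t' h1 h2
    rcases h2.lt_or_eq with h | h
    · have hs : (G t' - G t)/(t' - t) ≤ α := by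
        rcases h1.lt_or_eq with h3 | h3
        · have e1 := hc q0 r t hqr h3
          have e2 := hc r t t' h3 h
          exact (e2.trans e1)
        · subst h3
          exact hc q0 r t' hqr h
      rw [div_le_iff₀ (by linarith)] at hs
      linarith
    · subst h; simp
  -- parameters
  set q : ℝ := (3:ℝ) ^ ((β - α)/2) with hq
  set y : ℝ := (3:ℝ) ^ (-((α + β)/2)) with hy
  have hβpos : 0 < β := by linarith
  have hq1 : 1 < q := Real.one_lt_rpow (by norm_num) (by linarith)
  have hy0 : 0 < y := by positivity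
  have hy1 : y ≤ 1 := Real.rpow_le_one_of_one_le_of_nonpos (by norm_num) (by linarith)
  have hyq : y * q = (3:ℝ)^(-α) := by
    rw [hy, hq, ← Real.rpow_add (by norm_num)]; congr 1; ring
  have hyq' : y / q = (3:ℝ)^(-β) := by
    rw [hy, hq, ← Real.rpow_sub (by norm_num)]; congr 1; ring
  obtain ⟨M, hM⟩ := exists_nat_ge ((r - p)/Real.log 2)
  have hlog2 : 0 < Real.log 2 := Real.log_pos (by norm_num)
  have hlog3 : 0 < Real.log 3 := Real.log_pos (by norm_num)
  rw [div_le_iff₀ hlog2] at hM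
  obtain ⟨n, hn0, hn1, hgr⟩ := growth (q := q) (y := y) (M := (M:ℝ)) (K := Real.exp α) hq1 hy0
    (Real.exp_pos _) (by positivity) (M + 2)
  set j : ℕ := n^2 with hj
  have hj1 : 1 ≤ j := Nat.one_le_pow _ _ hn1
  have hjM : M + 2 ≤ j := by rw [hj]; nlinarith
  set N : ℕ := 8 * j^2 with hN
  set k0 : ℕ := 2 * j^2 with hk0
  have hN4 : N = 4 * k0 := by rw [hN, hk0]; ring
  set A : ℝ := Real.exp p / Nat.choose N k0 with hA
  have hchk0 : (0:ℝ) < Nat.choose N k0 := by
    exact_mod_cast Nat.choose_pos (by omega)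
  have hA0 : 0 < A := by positivity
  set c : ℕ → ℝ := fun k => Real.log (A * Nat.choose N k) with hcdef
  set b : ℕ → ℝ := fun k => Real.exp (G (c k)) with hbdef
  have hb : ∀ k, 0 < b k := fun k => Real.exp_pos _
  have hchpos : ∀ k, k ≤ N → (0:ℝ) < Nat.choose N k := fun k hk => by
    exact_mod_cast Nat.choose_pos hk
  have hck0 : c k0 = p := by
    simp only [hcdef, hA]
    rw [div_mul_cancel₀ _ hchk0.ne', Real.log_exp]
  have hcdiff : ∀ k l, k ≤ N → l ≤ N → c l - c k = Real.log (Nat.choose N l / Nat.choose N k) := by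
    intro k l hk hl
    have h1 := hchpos k hk
    have h2 := hchpos l hl
    simp only [hcdef]
    rw [Real.log_mul hA0.ne' h2.ne', Real.log_mul hA0.ne' h1.ne', Real.log_div h2.ne' h1.ne']
    ring
  have hjj : 1 ≤ j^2 := Nat.one_le_pow _ _ hj1
  have hj2 : M + 2 ≤ j^2 := hjM.trans (Nat.le_self_pow (by norm_num) j)
  have hj3 : (M+2) * j ≤ j^2 := by rw [sq]; exact Nat.mul_le_mul_right _ hjM
  have hj4 : M + 2 * j ≤ j^2 := by nlinarith
  -- k1
  have hck1 : r ≤ c (k0 + M) := by
    have h1 := manyC (N := N) (k0 := k0) M (by omega)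
    have h2 := hcdiff k0 (k0+M) (by omega) (by omega)
    have h3 : (M:ℝ) * Real.log 2 ≤ c (k0+M) - c k0 := by
      rw [h2, ← Real.log_pow]
      apply Real.log_le_log (by positivity)
      rw [le_div_iff₀ hchk0]; exact h1
    rw [hck0] at h3
    linarith
  have H2 : ∀ k, k ≤ k0 → b k * (y/q)^k ≤ b k0 * (y/q)^k0 := by
    intro k hk
    obtain ⟨d, hd⟩ := Nat.exists_eq_add_of_le hk
    have h1 := manyA hN4 d k hd.symm
    have h2 := hcdiff k k0 (by omega) (by omega)
    have hkp := hchpos k (by omega)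
    have h3 : (d:ℝ) * Real.log 3 ≤ c k0 - c k := by
      rw [h2, ← Real.log_pow]
      apply Real.log_le_log (by positivity)
      rw [le_div_iff₀ hkp]; exact h1
    have hcp : c k ≤ p := by
      rw [hck0] at h3
      have : 0 ≤ (d:ℝ) * Real.log 3 := by positivity
      linarith
    have h4 := hleft (c k) hcp
    have h5 : G (c k) ≤ G (c k0) - β * (d * Real.log 3) := by
      rw [hck0] at h3 ⊢
      have := mul_le_mul_of_nonneg_left h3 hβpos.le
      linarith
    have h6 : b k ≤ b k0 * (y/q)^d := by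
      have : (y/q)^d = Real.exp (-(β * (d * Real.log 3))) := by
        rw [hyq', Real.rpow_def_of_pos (by norm_num), ← Real.exp_nat_mul]
        congr 1; ring
      rw [this]
      simp only [hbdef]
      rw [← Real.exp_add]
      apply Real.exp_le_exp.mpr
      linarith
    have hyq0 : 0 < y/q := by positivity
    calc b k * (y/q)^k ≤ (b k0 * (y/q)^d) * (y/q)^k := by gcongr
      _ = b k0 * (y/q)^k0 := by rw [mul_assoc, ← pow_add, hd]; congr 2; omega
  have H1 : ∀ k, k0 + M ≤ k → k ≤ N → b k * (y*q)^k ≤ b (k0+M) * (y*q)^(k0+M) := by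
    intro k hk hkN
    obtain ⟨d, hd⟩ := Nat.exists_eq_add_of_le hk
    have h1 := manyB hN4 (by omega : k0 ≤ k0 + M) d
    rw [← hd] at h1
    have h2 := hcdiff (k0+M) k (by omega) hkN
    have hkp := hchpos (k0+M) (by omega)
    have hkp2 := hchpos k hkN
    have h3 : c k - c (k0+M) ≤ (d:ℝ) * Real.log 3 := by
      rw [h2, ← Real.log_pow]
      apply Real.log_le_log (by positivity)
      rw [div_le_iff₀ hkp]; exact h1
    have h5 : G (c k) ≤ G (c (k0+M)) + α * (d * Real.log 3) := by
      rcases le_total (c (k0+M)) (c k) with h | h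
      · have h4 := hright _ _ hck1 h
        have := mul_le_mul_of_nonneg_left h3 hα0
        linarith
      · have h4 := hmono h
        have : 0 ≤ α * (d * Real.log 3) := by positivity
        linarith
    have h6 : b k * (y*q)^d ≤ b (k0+M) := by
      have : (y*q)^d = Real.exp (-(α * (d * Real.log 3))) := by
        rw [hyq, Real.rpow_def_of_pos (by norm_num), ← Real.exp_nat_mul]
        congr 1; ring
      rw [this]
      simp only [hbdef]
      rw [← Real.exp_add]
      apply Real.exp_le_exp.mpr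
      linarith
    have hyq0 : 0 < y*q := by positivity
    calc b k * (y*q)^k = (b k * (y*q)^d) * (y*q)^(k0+M) := by rw [hd, pow_add]; ring
      _ ≤ b (k0+M) * (y*q)^(k0+M) := by gcongr
  have hup := upper (b := b) (N := N) (k0 := k0) (M := M) (fun k => (hb k).le) hy0 hq1 (by omega) H1 H2
  -- lower
  have hmax : ∀ k, k ≤ N → b k ≤ b (4*j^2) := by
    intro k hk
    simp only [hbdef]
    apply Real.exp_le_exp.mpr
    apply hmono
    simp only [hcdef]
    apply Real.log_le_log (mul_pos hA0 (hchpos k hk))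
    have : Nat.choose N k ≤ Nat.choose N (4*j^2) := by
      have h := Nat.choose_le_middle k N
      have h2 : N / 2 = 4*j^2 := by omega
      rwa [h2] at h
    have h' : (Nat.choose N k : ℝ) ≤ Nat.choose N (4*j^2) := by exact_mod_cast this
    gcongr
  have hjm : j ≤ 4*j^2 := by nlinarith
  have hmid := midD hj1
  have hlow1 : b (4*j^2) ≤ Real.exp α * b (4*j^2 - j) := by
    have hkp := hchpos (4*j^2 - j) (by omega)
    have hkp2 := hchpos (4*j^2) (by omega)
    have h2 := hcdiff (4*j^2 - j) (4*j^2) (by omega) (by omega)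
    have h3 : c (4*j^2) - c (4*j^2 - j) ≤ 1 := by
      rw [h2, Real.log_le_iff_le_exp (by positivity), div_le_iff₀ hkp]
      exact hmid
    -- c (4j^2 - j) ≥ r
    have h4 : r ≤ c (4*j^2 - j) := by
      refine hck1.trans ?_
      have hle := choose_mono_half (N := N) (k := k0 + M) (l := 4*j^2 - j) (by omega) (by omega)
      have hle' : (Nat.choose N (k0+M) : ℝ) ≤ Nat.choose N (4*j^2 - j) := by exact_mod_cast hle
      simp only [hcdef]
      apply Real.log_le_log (mul_pos hA0 (hchpos (k0+M) (by omega)))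
      gcongr
    have h5 : c (4*j^2 - j) ≤ c (4*j^2) := by
      have hle := choose_mono_half (N := N) (k := 4*j^2 - j) (l := 4*j^2) (by omega) (by omega)
      have hle' : (Nat.choose N (4*j^2 - j) : ℝ) ≤ Nat.choose N (4*j^2) := by exact_mod_cast hle
      simp only [hcdef]
      apply Real.log_le_log (mul_pos hA0 hkp)
      gcongr
    have h6 := hright _ _ h4 h5
    simp only [hbdef]
    rw [← Real.exp_add]
    apply Real.exp_le_exp.mpr
    have := mul_le_mul_of_nonneg_left h3 hα0
    linarith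
  have hsym : b (4*j^2 + j) = b (4*j^2 - j) := by
    simp only [hbdef, hcdef]
    have : Nat.choose N (4*j^2+j) = Nat.choose N (4*j^2 - j) := by
      rw [← Nat.choose_symm (by omega : 4*j^2 - j ≤ N)]
      congr 1; omega
    rw [this]
  have hlow := lower (b := b) (N := N) (m := 4*j^2) (j := j) (fun k _ => hb k) hq1 (Real.exp_pos α)
    hjm (by omega) hmax hlow1 (by rw [hsym]; exact hlow1)
  have hRR := hR N A hA0 q y hq1 hy0 hy1
  have hS0 : 0 < ∑ k ∈ range (N+1), b k * y^k :=
    Finset.sum_pos (fun k _ => mul_pos (hb k) (by positivity)) (by simp)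
  have e1 : (q^(2*j) / ((Real.exp α)^2 * ((N:ℝ)+1)^2))^y ≤ ((N:ℝ)+1)^2 * q^M := by
    calc _ ≤ _ := Real.rpow_le_rpow (by positivity) hlow hy0.le
      _ ≤ _ := hRR
      _ ≤ _ := by
        rw [div_le_iff₀ (by positivity)]
        calc _ ≤ _ := hup
          _ = _ := by ring
  have hNr : (N:ℝ) = 8 * ((n:ℝ)^2)^2 := by rw [hN, hj]; push_cast; ring
  rw [hNr] at e1
  have e2 : q^(2*(n:ℝ)^2) = q^(2*j) := by
    have h0 : (2*(n:ℝ)^2) = ((2*j : ℕ) : ℝ) := by rw [hj]; push_cast; ring
    rw [h0, Real.rpow_natCast]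
  have e3 : q^(M:ℝ) = q^M := Real.rpow_natCast _ _
  rw [e2, e3] at hgr
  exact absurd hgr (not_lt.mpr e1)

end Pool.Agent.H11P.D
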