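import Pool.Agent.H11P.Defs

set_option autoImplicit false

namespace Pool.Agent.H11P

open Polynomial

theorem excl_num {a : ℝ} (h1 : 1 < a) (h2 : a ≤ 11 / 10) : (6 : ℝ) ^ a + 2 < 2 * (4 : ℝ) ^ a := by
  set s : ℝ := a - 1 with hs
  have hs0 : 0 < s := by linarith
  have hs1 : s ≤ 1 / 10 := by linarith
  have hp0 : 0 ≤ 10 * s := by linarith
  have hp1 : 10 * s ≤ 1 := by linarith
  have e1 : ((3 : ℝ) / 2) ^ s ≤ 1 + 10 * s * (414 / 10000) := by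
    have h3 : ((3 : ℝ) / 2) ≤ (1 + 414 / 10000 : ℝ) ^ (10 : ℝ) := by
      rw [show (10 : ℝ) = ((10 : ℕ) : ℝ) by norm_num, Real.rpow_natCast]
      norm_num
    calc ((3 : ℝ) / 2) ^ s ≤ ((1 + 414 / 10000 : ℝ) ^ (10 : ℝ)) ^ s :=
          Real.rpow_le_rpow (by norm_num) h3 hs0.le
      _ = (1 + 414 / 10000 : ℝ) ^ (10 * s) := by rw [← Real.rpow_mul (by norm_num)]
      _ ≤ 1 + 10 * s * (414 / 10000) :=
          rpow_one_add_le_one_add_mul_self (by norm_num) hp0 hp1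
  have e2 : ((1 : ℝ) / 4) ^ s ≤ 1 + 10 * s * (-(1294 / 10000)) := by
    have h3 : ((1 : ℝ) / 4) ≤ (1 + -(1294 / 10000) : ℝ) ^ (10 : ℝ) := by
      rw [show (10 : ℝ) = ((10 : ℕ) : ℝ) by norm_num, Real.rpow_natCast]
      norm_num
    calc ((1 : ℝ) / 4) ^ s ≤ ((1 + -(1294 / 10000) : ℝ) ^ (10 : ℝ)) ^ s :=
          Real.rpow_le_rpow (by norm_num) h3 hs0.le
      _ = (1 + -(1294 / 10000) : ℝ) ^ (10 * s) := by rw [← Real.rpow_mul (by norm_num)]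
      _ ≤ 1 + 10 * s * (-(1294 / 10000)) :=
          rpow_one_add_le_one_add_mul_self (by norm_num) hp0 hp1
  have e3 : 6 * ((3 : ℝ) / 2) ^ s + 2 * ((1 : ℝ) / 4) ^ s < 8 := by
    nlinarith
  have h4 : (0 : ℝ) < 4 ^ s := Real.rpow_pos_of_pos (by norm_num) s
  have e4 : ((3 : ℝ) / 2) ^ s * 4 ^ s = 6 ^ s := by
    rw [← Real.mul_rpow (by norm_num) (by norm_num)]; norm_num
  have e5 : ((1 : ℝ) / 4) ^ s * 4 ^ s = 1 := by
    rw [← Real.mul_rpow (by norm_num) (by norm_num)]; norm_num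
  have e6 : (6 : ℝ) ^ a = 6 * 6 ^ s := by
    rw [show a = 1 + s by rw [hs]; ring, Real.rpow_add (by norm_num), Real.rpow_one]
  have e7 : (4 : ℝ) ^ a = 4 * 4 ^ s := by
    rw [show a = 1 + s by rw [hs]; ring, Real.rpow_add (by norm_num), Real.rpow_one]
  rw [e6, e7]
  have e8 := mul_lt_mul_of_pos_right e3 h4
  have e9 : (6 * ((3 : ℝ) / 2) ^ s + 2 * ((1 : ℝ) / 4) ^ s) * 4 ^ s = 6 * 6 ^ s + 2 := by
    rw [add_mul, mul_assoc, mul_assoc, e4, e5]; ring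
  linarith

theorem excl {a : ℝ} (h1 : 1 < a) (h2 : a ≤ 11 / 10) :
    ¬ RR (1 + C ((4 : ℝ) ^ a) * X + C ((6 : ℝ) ^ a) * X ^ 2 + C ((4 : ℝ) ^ a) * X ^ 3 + X ^ 4) := by
  rintro ⟨-, hroot⟩
  have hn := excl_num h1 h2
  have hu4 : (4 : ℝ) < 4 ^ a := by
    have := Real.rpow_lt_rpow_of_exponent_lt (by norm_num : (1 : ℝ) < 4) h1
    simpa using this
  have hv6 : (6 : ℝ) < 6 ^ a := by
    have := Real.rpow_lt_rpow_of_exponent_lt (by norm_num : (1 : ℝ) < 6) h1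
    simpa using this
  set u : ℝ := (4 : ℝ) ^ a with hu
  set v : ℝ := (6 : ℝ) ^ a with hv
  set D : ℝ := u ^ 2 - 4 * (v - 2) with hD
  have hDpos : (u - 4) ^ 2 < D := by rw [hD]; nlinarith
  have hD0 : 0 ≤ D := le_trans (sq_nonneg _) hDpos.le
  have hsq : Real.sqrt D ^ 2 = D := Real.sq_sqrt hD0
  have hlow : u - 4 < Real.sqrt D := by
    apply Real.lt_sqrt_of_sq_lt
    exact hDpos
  have hup : Real.sqrt D < u := by
    rw [Real.sqrt_lt' (by linarith)]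
    rw [hD]; nlinarith
  set y : ℝ := (-u + Real.sqrt D) / 2 with hy
  have hy1 : -2 < y := by rw [hy]; linarith
  have hy2 : y < 0 := by rw [hy]; linarith
  have hyeq : y ^ 2 + u * y + v - 2 = 0 := by
    rw [hy]
    nlinarith
  have hw : 0 < 4 - y ^ 2 := by nlinarith
  set w : ℝ := Real.sqrt (4 - y ^ 2) with hwdef
  have hwpos : 0 < w := Real.sqrt_pos.2 hw
  have hwsq : w ^ 2 = 4 - y ^ 2 := Real.sq_sqrt hw.le
  let z : ℂ := ((y / 2 : ℝ) : ℂ) + ((w / 2 : ℝ) : ℂ) * Complex.I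
  have hzeq : z ^ 2 - (y : ℂ) * z + 1 = 0 := by
    have hI : Complex.I ^ 2 = -1 := Complex.I_sq
    have hwC : (w : ℂ) ^ 2 = 4 - (y : ℂ) ^ 2 := by exact_mod_cast hwsq
    simp only [z]
    push_cast
    linear_combination ((w : ℂ) ^ 2 / 4) * hI - (1 / 4) * hwC
  have hyC : (y : ℂ) ^ 2 + (u : ℂ) * y + (v : ℂ) - 2 = 0 := by exact_mod_cast hyeq
  have h0 : aeval z (1 + C u * X + C v * X ^ 2 + C u * X ^ 3 + X ^ 4 : ℝ[X]) = 0 := by
    simp only [map_add, map_mul, map_pow, map_one, aeval_X, aeval_C]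
    change 1 + (u : ℂ) * z + (v : ℂ) * z ^ 2 + (u : ℂ) * z ^ 3 + z ^ 4 = 0
    linear_combination (z ^ 2 + ((u : ℂ) + y) * z + 1) * hzeq + z ^ 2 * hyC
  have h3 := hroot z h0
  simp [z] at h3
  exact hwpos.ne' h3

end Pool.Agent.H11P
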