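import Mathlib

set_option autoImplicit false

namespace Pool.Agent.H11P

theorem conc_aux {G : ℝ → ℝ} (h : ∀ x y s, (x + y) / 2 < s → (G x + G y) / 2 ≤ G s)
    {p q r : ℝ} (hpq : p < q) (m k : ℕ) (hm : 0 < m) (hk : 0 < k)
    (hmk : (r - q) / (q - p) < (k : ℝ) / m) : (m : ℝ) * (G r - G q) ≤ k * (G q - G p) := by
  have hm' : (0 : ℝ) < m := by exact_mod_cast hm
  have hk' : (0 : ℝ) < k := by exact_mod_cast hk
  have hqp : 0 < q - p := sub_pos.2 hpq
  rw [div_lt_div_iff₀ hqp hm'] at hmk
  set η : ℝ := 2 * (k * (q - p) / m - (r - q)) / (k * (m + k)) with hη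
  have hη0 : 0 < η := by
    apply div_pos
    · have : r - q < k * (q - p) / m := by
        rw [lt_div_iff₀ hm']; exact hmk
      linarith
    · positivity
  set A : ℝ := (q - p) / m + η * (m - 1) / 2 with hA
  let x : ℕ → ℝ := fun i => p + i * A - η * i * (i - 1) / 2
  have x0 : x 0 = p := by simp [x]
  have xm : x m = q := by
    simp only [x, hA]
    field_simp
    ring
  have xmk : x (m + k) = r := by
    have e1 : x (m + k) = q + k * (q - p) / m - η * (k * (m + k)) / 2 := by
      simp only [x, hA]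
      push_cast
      field_simp
      ring
    have e2 : η * (k * (m + k)) = 2 * (k * (q - p) / m - (r - q)) := by
      rw [hη]
      have : ((k : ℝ) * (m + k)) ≠ 0 := by positivity
      field_simp
    rw [e1, e2]
    ring
  let g : ℕ → ℝ := fun i => G (x (i + 1)) - G (x i)
  have hg : Antitone g := by
    apply antitone_nat_of_succ_le
    intro i
    have h1 : (x i + x (i + 2)) / 2 < x (i + 1) := by
      simp only [x]
      push_cast
      nlinarith
    have h2 := h _ _ _ h1
    simp only [g]
    have : i + 1 + 1 = i + 2 := rfl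
    rw [this]
    linarith
  have s1 : (m : ℝ) * g m ≤ G q - G p := by
    have e : ∑ i ∈ Finset.range m, g i = G (x m) - G (x 0) :=
      Finset.sum_range_sub (fun i => G (x i)) m
    rw [xm, x0] at e
    rw [← e]
    have : ∑ i ∈ Finset.range m, g m ≤ ∑ i ∈ Finset.range m, g i :=
      Finset.sum_le_sum (fun i hi => hg (Finset.mem_range.1 hi).le)
    simpa using this
  have s2 : G r - G q ≤ (k : ℝ) * g m := by
    have e : ∑ i ∈ Finset.range k, g (m + i) = G (x (m + k)) - G (x m) := by
      have := Finset.sum_range_sub (fun i => G (x (m + i))) k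
      simpa [g, add_assoc] using this
    rw [xmk, xm] at e
    rw [← e]
    have : ∑ i ∈ Finset.range k, g (m + i) ≤ ∑ i ∈ Finset.range k, g m :=
      Finset.sum_le_sum (fun i _ => hg (Nat.le_add_right m i))
    simpa using this
  calc (m : ℝ) * (G r - G q) ≤ m * (k * g m) := mul_le_mul_of_nonneg_left s2 hm'.le
    _ = k * (m * g m) := by ring
    _ ≤ k * (G q - G p) := mul_le_mul_of_nonneg_left s1 hk'.le

theorem conc_slope {G : ℝ → ℝ} (h : ∀ x y s, (x + y) / 2 < s → (G x + G y) / 2 ≤ G s)
    (p q r : ℝ) (hpq : p < q) (hqr : q < r) :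
    (G r - G q) / (r - q) ≤ (G q - G p) / (q - p) := by
  have hqp : 0 < q - p := sub_pos.2 hpq
  have hrq : 0 < r - q := sub_pos.2 hqr
  have ha : 0 ≤ G q - G p := by
    have := h p p q (by linarith)
    linarith
  have hkey : ∀ t : ℚ, 0 < t → (r - q) / (q - p) < (t : ℝ) → G r - G q ≤ t * (G q - G p) := by
    intro t ht0 ht
    have hn : 0 < t.num.toNat := by
      have := Rat.num_pos.2 ht0
      omega
    have h3 : ((t.num.toNat : ℕ) : ℤ) = t.num := Int.toNat_of_nonneg (Rat.num_pos.2 ht0).le
    have h4 : ((t.num.toNat : ℕ) : ℝ) = (t.num : ℝ) := by exact_mod_cast h3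
    have h5 : ((t.num.toNat : ℕ) : ℝ) / t.den = t := by
      rw [h4]
      exact_mod_cast Rat.num_div_den t
    have hd : (0 : ℝ) < t.den := by exact_mod_cast t.den_pos
    have := conc_aux h hpq t.den t.num.toNat t.den_pos hn (by rw [h5]; exact ht)
    rw [← h5]
    rw [div_mul_eq_mul_div, le_div_iff₀ hd]
    linarith
  by_contra hcon
  push Not at hcon
  rw [div_lt_div_iff₀ hqp hrq] at hcon
  -- `(G q - G p) * (r - q) < (G r - G q) * (q - p)`
  rcases ha.eq_or_lt with h0 | h0
  · obtain ⟨t, ht⟩ := exists_rat_gt ((r - q) / (q - p))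
    have ht0 : (0 : ℝ) < t := (div_pos hrq hqp).trans ht
    have := hkey t (by exact_mod_cast ht0) ht
    rw [← h0, mul_zero] at this
    rw [← h0, zero_mul] at hcon
    have h6 : (G r - G q) * (q - p) ≤ 0 := mul_nonpos_of_nonpos_of_nonneg this hqp.le
    linarith
  · have h1 : (r - q) / (q - p) < (G r - G q) / (G q - G p) := by
      rw [div_lt_div_iff₀ hqp h0]
      linarith
    obtain ⟨t, ht1, ht2⟩ := exists_rat_btwn h1
    have ht0 : (0 : ℝ) < t := (div_pos hrq hqp).trans ht1
    have := hkey t (by exact_mod_cast ht0) ht1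
    rw [lt_div_iff₀ h0] at ht2
    linarith

theorem conc {G : ℝ → ℝ} (h : ∀ x y s, (x + y) / 2 < s → (G x + G y) / 2 ≤ G s) :
    Monotone G ∧ ConcaveOn ℝ Set.univ G := by
  constructor
  · intro x y hxy
    rcases hxy.eq_or_lt with rfl | hlt
    · exact le_rfl
    · have := h x x y (by linarith)
      linarith
  · apply concaveOn_of_slope_anti_adjacent convex_univ
    intro x y z _ _ hxy hyz
    exact conc_slope h x y z hxy hyz

end Pool.Agent.H11P
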