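import Mathlib
import Pool.Agent.H11P.Defs
import Pool.Agent.H11P.A
import Pool.Agent.H11P.B
import Pool.Agent.H11P.C
import Pool.Agent.H11P.D2
import Pool.Agent.H11P.E
import Pool.Agent.H11P.H

namespace Pool.Agent.H11P

open Polynomial

/-- The class `𝒫_d`: polynomials of degree at most `d` with nonnegative coefficients, all of whose
complex zeros are real (so the zero polynomial is not in it). -/
def P (d : ℕ) (f : ℝ[X]) : Prop :=
  f.natDegree ≤ d ∧ (∀ j, 0 ≤ f.coeff j) ∧ ∀ z : ℂ, aeval z f = 0 → z.im = 0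

/-- The entrywise image `F[f] = ∑_{j ≤ d} F(a_j) z^j` of `f = ∑_{j ≤ d} a_j z^j`. -/
noncomputable def app (F : ℝ → ℝ) (d : ℕ) (f : ℝ[X]) : ℝ[X] :=
  ∑ j ∈ Finset.range (d + 1), monomial j (F (f.coeff j))

lemma P.rr {d : ℕ} {f : ℝ[X]} (h : P d f) : RR f := ⟨h.2.1, h.2.2⟩

lemma app_coeff {F : ℝ → ℝ} (hF0 : F 0 = 0) {d : ℕ} {f : ℝ[X]} (hf : f.natDegree ≤ d) (k : ℕ) :
    (app F d f).coeff k = F (f.coeff k) := by
  unfold app
  rw [finsetSum_coeff]
  simp only [coeff_monomial]
  rw [Finset.sum_ite_eq']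
  split_ifs with h
  · rfl
  · have : d < k := by simpa using h
    rw [coeff_eq_zero_of_natDegree_lt (by omega), hF0]

lemma app_coeff_le {F : ℝ → ℝ} {d : ℕ} {f : ℝ[X]} {k : ℕ} (hk : k ≤ d) :
    (app F d f).coeff k = F (f.coeff k) := by
  unfold app
  rw [finsetSum_coeff]
  simp only [coeff_monomial]
  rw [Finset.sum_ite_eq']
  simp; omega

lemma app_eval (F : ℝ → ℝ) (d : ℕ) (f : ℝ[X]) (x : ℝ) :
    (app F d f).eval x = ∑ j ∈ Finset.range (d+1), F (f.coeff j) * x^j := by
  unfold app
  rw [eval_finsetSum]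
  simp [eval_monomial]

lemma not_RR_zero : ¬ RR (0 : ℝ[X]) := by
  intro h
  have := h.2 Complex.I (by simp)
  simp at this

lemma P_const {a : ℝ} (ha : 0 < a) : P 0 (C a) := by
  refine ⟨by simp, ?_, ?_⟩
  · intro j
    rw [coeff_C]; split_ifs <;> linarith
  · intro z hz
    simp at hz
    exact absurd hz ha.ne'

lemma Fpos {F : ℝ → ℝ} (hF0 : F 0 = 0) (hP : ∀ d f, P d f → P d (app F d f)) {a : ℝ} (ha : 0 < a) :
    0 < F a := by
  have h := hP 0 _ (P_const ha)
  have hc : (app F 0 (C a)).coeff 0 = F a := by rw [app_coeff_le le_rfl]; simp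
  have h0 : 0 ≤ F a := by rw [← hc]; exact h.2.1 0
  rcases h0.lt_or_eq with h1 | h1
  · exact h1
  · exfalso
    have : app F 0 (C a) = 0 := by
      unfold app; simp [← h1]
    rw [this] at h
    exact not_RR_zero h.rr

lemma P_binom {A : ℝ} (hA : 0 < A) (N : ℕ) : P N (C A * (1 + X)^N) := by
  refine ⟨?_, ?_, ?_⟩
  · refine (natDegree_C_mul_le _ _).trans ?_
    refine (natDegree_pow_le).trans ?_
    have : (1 + X : ℝ[X]).natDegree ≤ 1 := by
      refine (natDegree_add_le _ _).trans ?_
      simp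
    nlinarith
  · intro j
    rw [coeff_C_mul, coeff_one_add_X_pow]
    positivity
  · intro z hz
    simp only [map_mul, map_pow, map_add, map_one, aeval_X, aeval_C] at hz
    rcases mul_eq_zero.mp hz with h | h
    · exfalso
      have : (A:ℂ) ≠ 0 := by exact_mod_cast hA.ne'
      exact this h
    · have h1 : (1:ℂ) + z = 0 := by
        by_contra hne
        exact (pow_ne_zero N hne) h
      have : z = -1 := by linear_combination h1
      rw [this]; simp

/-- `F` is a power function -/
theorem power {F : ℝ → ℝ} (hF0 : F 0 = 0) (hP : ∀ d f, P d f → P d (app F d f)) :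
    ∃ α γ : ℝ, ∀ x, 0 < x → F x = Real.exp (γ + α * Real.log x) := by
  have hpos : ∀ a, 0 < a → 0 < F a := fun a ha => Fpos hF0 hP ha
  set G : ℝ → ℝ := fun s => Real.log (F (Real.exp s)) with hG
  have hFG : ∀ x, 0 < x → Real.exp (G (Real.log x)) = F x := by
    intro x hx
    simp only [hG]
    rw [Real.exp_log hx, Real.exp_log (hpos x hx)]
  have hmid : ∀ x y s, (x+y)/2 < s → (G x + G y)/2 ≤ G s := by
    intro x y s hs
    obtain ⟨f, k, hf, h0, h1, h2⟩ := exist_abc (Real.exp_pos x) (Real.exp_pos s) (Real.exp_pos y) (by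
      rw [← Real.exp_add, ← Real.exp_nat_mul]
      apply Real.exp_lt_exp.mpr
      push_cast; linarith)
    have hB := hP f.natDegree f ⟨le_rfl, hf.1, hf.2⟩
    have hl := logconc hB.rr k
    rw [app_coeff hF0 le_rfl, app_coeff hF0 le_rfl, app_coeff hF0 le_rfl, h0, h1, h2] at hl
    have p1 := hpos _ (Real.exp_pos x)
    have p2 := hpos _ (Real.exp_pos s)
    have p3 := hpos _ (Real.exp_pos y)
    have := Real.log_le_log (mul_pos p1 p3) hl
    rw [Real.log_mul p1.ne' p3.ne', Real.log_pow] at this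
    simp only [hG]
    push_cast at this
    linarith
  obtain ⟨hmono, -⟩ := conc hmid
  have hc := conc_slope hmid
  have hR : ∀ (N : ℕ) (A : ℝ), 0 < A → ∀ q y : ℝ, 1 < q → 0 < y → y ≤ 1 →
      (((∑ k ∈ Finset.range (N+1), Real.exp (G (Real.log (A * Nat.choose N k))) * q^k) *
        (∑ k ∈ Finset.range (N+1), Real.exp (G (Real.log (A * Nat.choose N k))) * q⁻¹^k)) /
        (∑ k ∈ Finset.range (N+1), Real.exp (G (Real.log (A * Nat.choose N k))) * 1^k)^2)^y ≤
      ((∑ k ∈ Finset.range (N+1), Real.exp (G (Real.log (A * Nat.choose N k))) * (y*q)^k) *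
        (∑ k ∈ Finset.range (N+1), Real.exp (G (Real.log (A * Nat.choose N k))) * (y/q)^k)) /
        (∑ k ∈ Finset.range (N+1), Real.exp (G (Real.log (A * Nat.choose N k))) * y^k)^2 := by
    intro N A hA q y hq hy hy1
    have hB := hP N _ (P_binom hA N)
    have h0 : 0 < (app F N (C A * (1 + X)^N)).coeff 0 := by
      rw [app_coeff_le (Nat.zero_le _), coeff_C_mul, coeff_one_add_X_pow]
      apply hpos; simpa using hA
    have hr := Rineq hB.rr h0 hq hy hy1
    simp only [app_eval, coeff_C_mul, coeff_one_add_X_pow] at hr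
    have hs : ∀ t : ℝ, ∑ k ∈ Finset.range (N+1), Real.exp (G (Real.log (A * Nat.choose N k))) * t^k =
        ∑ k ∈ Finset.range (N+1), F (A * Nat.choose N k) * t^k := by
      intro t
      apply Finset.sum_congr rfl
      intro k hk
      have hk' : k ≤ N := by simp at hk; omega
      have : (0:ℝ) < Nat.choose N k := by exact_mod_cast Nat.choose_pos hk'
      rw [hFG _ (by positivity)]
    simp only [hs]
    exact hr
  have hk : ∀ p q r : ℝ, p < q → q < r → (G q - G p) * (r - q) = (G r - G q) * (q - p) := by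
    intro p q r h1 h2
    have e1 := D.kink hmono hc hR h1 h2
    have e2 := hc p q r h1 h2
    have e := le_antisymm e1 e2
    rw [div_eq_div_iff (by linarith) (by linarith)] at e
    exact e
  refine ⟨G 1 - G 0, G 0, fun x hx => ?_⟩
  rw [← hFG x hx]
  congr 1
  set s := Real.log x
  rcases lt_trichotomy s 0 with h | h | h
  · have := hk s 0 1 h one_pos
    nlinarith
  · rw [h]; ring
  · rcases lt_trichotomy s 1 with h' | h' | h'
    · have := hk 0 s 1 h h'
      nlinarith
    · rw [h']; ring
    · have := hk 0 1 s one_pos h'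
      nlinarith

/-- the quadratic `1 + b z + z²` with `b < 2` -/
lemma quad_not {c b : ℝ} (hc : 0 < c) (hb0 : 0 < b) (hb : b < 2) : ¬ RR (C c * (1 + C b * X + X^2)) := by
  intro h
  have hs : 0 < 4 - b^2 := by nlinarith
  have hsq : (Real.sqrt (4 - b^2))^2 = 4 - b^2 := Real.sq_sqrt hs.le
  have hz := h.2 ⟨-b/2, Real.sqrt (4 - b^2) / 2⟩ (by
    simp only [map_mul, map_pow, map_add, map_one, aeval_X, aeval_C]
    apply mul_eq_zero_of_right
    apply Complex.ext
    · simp [pow_two]
      nlinarith [Real.mul_self_sqrt (show 0 ≤ 4 - b*b by nlinarith)]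
    · simp [pow_two]
      ring)
  simp at hz
  have := Real.sqrt_pos.mpr hs
  linarith

theorem result_main :
    (∀ F : ℝ → ℝ, (∀ x, 0 ≤ x → 0 ≤ F x) → F 0 = 0 → (∀ d f, P d f → P d (app F d f)) →
      ∃ c α : ℝ, 0 < c ∧ (α = 1 ∨ 11/10 < α) ∧ ∀ x, 0 ≤ x → F x = c * x ^ α) ∧
    (∀ (c : ℝ) (n : ℕ), 0 < c → 1 ≤ n → ∀ d f, P d f → P d (app (fun x => c * x ^ n) d f)) := by
  constructor
  · intro F _ hF0 hP
    obtain ⟨α, γ, h⟩ := power hF0 hP
    have hF : ∀ x, 0 < x → F x = Real.exp γ * x ^ α := by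
      intro x hx
      rw [h x hx, Real.exp_add, Real.rpow_def_of_pos hx]
      congr 2; ring
    -- α ≥ 1
    have hα1 : 1 ≤ α := by
      by_contra hlt
      push Not at hlt
      have hb2 : (2:ℝ)^α < 2 := by
        calc (2:ℝ)^α < 2^(1:ℝ) := Real.rpow_lt_rpow_of_exponent_lt (by norm_num) hlt
          _ = 2 := Real.rpow_one 2
      have h1 := hP 2 _ (P_binom one_pos 2)
      have he : app F 2 (C 1 * (1 + X)^2) = C (Real.exp γ) * (1 + C ((2:ℝ)^α) * X + X^2) := by
        unfold app
        simp only [Finset.sum_range_succ, Finset.sum_range_zero, coeff_C_mul, coeff_one_add_X_pow]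
        have c0 : F (1 * (Nat.choose 2 0 : ℝ)) = Real.exp γ := by rw [hF _ (by norm_num)]; norm_num
        have c1 : F (1 * (Nat.choose 2 1 : ℝ)) = Real.exp γ * 2^α := by
          rw [hF _ (by norm_num [Nat.choose])]; norm_num [Nat.choose]
        have c2 : F (1 * (Nat.choose 2 2 : ℝ)) = Real.exp γ := by rw [hF _ (by norm_num)]; norm_num
        rw [c0, c1, c2]
        simp only [← C_mul_X_pow_eq_monomial, map_mul]
        ring
      rw [he] at h1
      exact quad_not (Real.exp_pos γ) (by positivity) hb2 h1.rr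
    refine ⟨Real.exp γ, α, Real.exp_pos _, ?_, ?_⟩
    · by_contra hcon
      push Not at hcon
      have h1 := hP 4 _ (P_binom (Real.exp_pos (-γ/α)) 4)
      have hαpos : 0 < α := by linarith
      have hA : (Real.exp (-γ/α)) ^ α = Real.exp (-γ) := by
        rw [← Real.exp_mul]; congr 1; field_simp
      have hc' : ∀ m : ℝ, 0 < m → F (Real.exp (-γ/α) * m) = m ^ α := by
        intro m hm
        rw [hF _ (by positivity), Real.mul_rpow (by positivity) hm.le, hA, ← mul_assoc, ← Real.exp_add]
        simp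
      have he : app F 4 (C (Real.exp (-γ/α)) * (1 + X)^4) =
          1 + C ((4 : ℝ) ^ α) * X + C ((6 : ℝ) ^ α) * X ^ 2 + C ((4 : ℝ) ^ α) * X ^ 3 + X ^ 4 := by
        unfold app
        simp only [Finset.sum_range_succ, Finset.sum_range_zero, coeff_C_mul, coeff_one_add_X_pow]
        have c0 : F (Real.exp (-γ/α) * (Nat.choose 4 0 : ℝ)) = 1 := by rw [hc' _ (by norm_num)]; norm_num
        have c1 : F (Real.exp (-γ/α) * (Nat.choose 4 1 : ℝ)) = 4^α := by
          rw [hc' _ (by norm_num [Nat.choose])]; norm_num [Nat.choose]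
        have c2 : F (Real.exp (-γ/α) * (Nat.choose 4 2 : ℝ)) = 6^α := by
          rw [hc' _ (by norm_num [Nat.choose])]; norm_num [Nat.choose]
        have c3 : F (Real.exp (-γ/α) * (Nat.choose 4 3 : ℝ)) = 4^α := by
          rw [hc' _ (by norm_num [Nat.choose])]; norm_num [Nat.choose]
        have c4 : F (Real.exp (-γ/α) * (Nat.choose 4 4 : ℝ)) = 1 := by rw [hc' _ (by norm_num)]; norm_num
        rw [c0, c1, c2, c3, c4]
        simp only [← C_mul_X_pow_eq_monomial]
        simp
      rw [he] at h1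
      exact excl (lt_of_le_of_ne hα1 (Ne.symm hcon.1)) hcon.2 h1.rr
    · intro x hx
      rcases hx.lt_or_eq with h1 | h1
      · exact hF x h1
      · rw [← h1, hF0, Real.zero_rpow (by linarith)]; ring
  · intro c n hc hn d f hf
    have hm := malo_pow n hn f hf.rr
    have he : app (fun x => c * x ^ n) d f =
        C c * (∑ j ∈ Finset.range (f.natDegree+1), monomial j ((f.coeff j)^n)) := by
      ext k
      rw [app_coeff (by simp; omega) hf.1, coeff_C_mul]
      congr 1
      rw [finsetSum_coeff]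
      simp only [coeff_monomial]
      rw [Finset.sum_ite_eq']
      split_ifs with h
      · rfl
      · have : f.natDegree < k := by simpa using h
        rw [coeff_eq_zero_of_natDegree_lt this]
        exact zero_pow (by omega)
    refine ⟨?_, ?_, ?_⟩
    · unfold app
      apply natDegree_sum_le_of_forall_le
      intro j hj
      refine (natDegree_monomial_le _).trans ?_
      simp at hj; omega
    · intro j
      rw [he, coeff_C_mul]
      exact mul_nonneg hc.le (hm.1 j)
    · intro z hz
      rw [he, map_mul, aeval_C] at hz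
      rcases mul_eq_zero.mp hz with h | h
      · exfalso
        have : (c:ℂ) ≠ 0 := by exact_mod_cast hc.ne'
        exact this h
      · exact hm.2 z h

end Pool.Agent.H11P
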