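import Pool.Agent.H11P.Fin

namespace Pool.Agent.H11P

open Polynomial

/-- real-rooted: the zero polynomial and nonzero constants count -/
def RealRooted (p : ℝ[X]) : Prop := p = 0 ∨ ∀ z : ℂ, aeval z p = 0 → z.im = 0

/-- the class `𝒫⁺`: real-rooted with strictly positive coefficients `a_0, …, a_n` -/
def Pplus (p : ℝ[X]) : Prop := RealRooted p ∧ ∀ k ≤ p.natDegree, 0 < p.coeff k

/-- `F[p] = ∑_{k ≤ n} F(a_k) x^k`, `n` the degree of `p` -/
noncomputable def coefMap (F : ℝ → ℝ) (p : ℝ[X]) : ℝ[X] :=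
  ∑ k ∈ Finset.range (p.natDegree + 1), monomial k (F (p.coeff k))

/-- `F` preserves real-rootedness -/
def Preserves (F : ℝ → ℝ) : Prop := ∀ p, Pplus p → RealRooted (coefMap F p)

lemma coefMap_eq (F : ℝ → ℝ) (p : ℝ[X]) : coefMap F p = app F p.natDegree p := rfl

lemma RR.ne_zero {f : ℝ[X]} (h : RR f) : f ≠ 0 := by
  rintro rfl
  exact not_RR_zero h

lemma app_X_mul {F : ℝ → ℝ} (hF0 : F 0 = 0) (g : ℝ[X]) (d : ℕ) (hg : (X * g).natDegree ≤ d) (hg' : g.natDegree ≤ d) :
    app F d (X * g) = X * app F d g := by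
  ext k
  rw [app_coeff hF0 hg]
  cases k with
  | zero => simp [hF0]
  | succ k => rw [coeff_X_mul, coeff_X_mul, app_coeff hF0 hg']

/-- general form: every `RR` polynomial is mapped to zero or to an `RR` polynomial -/
lemma red {F : ℝ → ℝ} (hFn : ∀ x, 0 ≤ x → 0 ≤ F x) (hF0 : F 0 = 0) (hP : Preserves F)
    (hposc : ∀ f : ℝ[X], RR f → 0 < f.coeff 0 → ∀ k ≤ f.natDegree, 0 < f.coeff k) :
    ∀ n : ℕ, ∀ f : ℝ[X], f.natDegree ≤ n → RR f → ∀ d, f.natDegree ≤ d → app F d f = 0 ∨ RR (app F d f) := by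
  intro n
  induction n with
  | zero =>
    intro f hf hR d hd
    by_cases h0 : f.coeff 0 = 0
    · exfalso
      have : f = 0 := by
        rw [eq_C_of_natDegree_le_zero hf, h0, map_zero]
      exact hR.ne_zero this
    · have h0' : 0 < f.coeff 0 := lt_of_le_of_ne (hR.1 0) (Ne.symm h0)
      have hPp : Pplus f := ⟨Or.inr hR.2, hposc f hR h0'⟩
      have h1 := hP f hPp
      have h2 : coefMap F f = app F d f := by
        rw [coefMap_eq]; ext k; rw [app_coeff hF0 le_rfl, app_coeff hF0 hd]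
      rw [h2] at h1
      rcases h1 with h1 | h1
      · exact Or.inl h1
      · exact Or.inr ⟨fun j => by rw [app_coeff hF0 hd]; exact hFn _ (hR.1 j), h1⟩
  | succ n ih =>
    intro f hf hR d hd
    by_cases h0 : f.coeff 0 = 0
    · obtain ⟨g, rfl⟩ := X_dvd_iff.mpr h0
      have hg0 : g ≠ 0 := by
        rintro rfl
        exact hR.ne_zero (by simp)
      have hdeg : (X * g).natDegree = g.natDegree + 1 := by
        rw [natDegree_mul X_ne_zero hg0, natDegree_X]; ring
      have hgR : RR g := by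
        refine ⟨fun j => ?_, fun z hz => ?_⟩
        · have := hR.1 (j+1); rwa [coeff_X_mul] at this
        · exact hR.2 z (by simp [hz])
      have h1 := ih g (by omega) hgR d (by omega)
      rw [app_X_mul hF0 g d hd (by omega)]
      rcases h1 with h1 | h1
      · left; rw [h1, mul_zero]
      · right
        refine ⟨fun j => ?_, fun z hz => ?_⟩
        · cases j with
          | zero => simp
          | succ j => rw [coeff_X_mul]; exact h1.1 j
        · rw [map_mul, aeval_X] at hz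
          rcases mul_eq_zero.mp hz with h | h
          · rw [h]; simp
          · exact h1.2 z h
    · have h0' : 0 < f.coeff 0 := lt_of_le_of_ne (hR.1 0) (Ne.symm h0)
      have hPp : Pplus f := ⟨Or.inr hR.2, hposc f hR h0'⟩
      have h1 := hP f hPp
      have h2 : coefMap F f = app F d f := by
        rw [coefMap_eq]; ext k; rw [app_coeff hF0 le_rfl, app_coeff hF0 hd]
      rw [h2] at h1
      rcases h1 with h1 | h1
      · exact Or.inl h1
      · exact Or.inr ⟨fun j => by rw [app_coeff hF0 hd]; exact hFn _ (hR.1 j), h1⟩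

lemma logc {F : ℝ → ℝ} (hFn : ∀ x, 0 ≤ x → 0 ≤ F x) (hF0 : F 0 = 0) (hP : Preserves F)
    (hposc : ∀ f : ℝ[X], RR f → 0 < f.coeff 0 → ∀ k ≤ f.natDegree, 0 < f.coeff k)
    {a b c : ℝ} (ha : 0 < a) (hb : 0 < b) (hc : 0 < c) (h : a * c < b^2) : F a * F c ≤ (F b)^2 := by
  obtain ⟨f, k, hf, h0, h1, h2⟩ := exist_abc ha hb hc h
  rcases red hFn hF0 hP hposc f.natDegree f le_rfl hf f.natDegree le_rfl with h3 | h3
  · have e0 := congrArg (fun p => coeff p k) h3
    simp only [app_coeff hF0 le_rfl, h0, coeff_zero] at e0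
    rw [e0]; simp; positivity
  · have hl := logconc h3 k
    rw [app_coeff hF0 le_rfl, app_coeff hF0 le_rfl, app_coeff hF0 le_rfl, h0, h1, h2] at hl
    exact hl

lemma mono {F : ℝ → ℝ} (hFn : ∀ x, 0 ≤ x → 0 ≤ F x) (hF0 : F 0 = 0) (hP : Preserves F)
    (hposc : ∀ f : ℝ[X], RR f → 0 < f.coeff 0 → ∀ k ≤ f.natDegree, 0 < f.coeff k)
    {x y : ℝ} (hx : 0 ≤ x) (hxy : x ≤ y) : F x ≤ F y := by
  rcases hx.lt_or_eq with h | h
  · rcases hxy.lt_or_eq with h1 | h1
    · have := logc hFn hF0 hP hposc h (h.trans h1) h (by nlinarith)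
      exact le_of_sq_le_sq (by nlinarith) (hFn y (h.trans h1).le)
    · rw [h1]
  · rw [← h, hF0]; exact hFn y (hx.trans hxy)

end Pool.Agent.H11P
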