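import Mathlib

namespace Pool.Agent.H11P.HL

open Filter Topology

/-- local version of the near-midpoint concavity lemma, on `(s0, ∞)` -/
theorem conc {G : ℝ → ℝ} {s0 : ℝ}
    (h : ∀ x y s, s0 < x → s0 < y → (x+y)/2 < s → (G x + G y)/2 ≤ G s) :
    ∀ p q r, s0 < p → p < q → q < r → (G r - G q)/(r - q) ≤ (G q - G p)/(q - p) := by
  intro p q r hp0 hpq hqr
  have hpr : p < r := hpq.trans hqr
  have hmono : ∀ a b, s0 < a → a ≤ b → G a ≤ G b := by
    intro a b ha hab
    rcases hab.lt_or_eq with h1 | h1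
    · have := h a a b ha ha (by linarith)
      linarith
    · rw [h1]
  set s1 : ℝ := (s0 + p)/2 with hs1
  have hs01 : s0 < s1 := by rw [hs1]; linarith
  have hs1p : s1 < p := by rw [hs1]; linarith
  set G2 : ℝ → ℝ := fun s => G (max s s1) with hG2
  have hG2e : ∀ s, s1 ≤ s → G2 s = G s := by
    intro s hs; simp only [hG2]; rw [max_eq_left hs]
  have hm : Monotone G2 := by
    intro a b hab
    simp only [hG2]
    exact hmono _ _ (lt_of_lt_of_le hs01 (le_max_right _ _)) (max_le_max hab le_rfl)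
  have hcont2 : ∀ s, s1 < s → ContinuousAt G2 s := by
    intro s hs
    rw [hm.continuousAt_iff_leftLim_eq_rightLim]
    refine le_antisymm (hm.leftLim_le_rightLim le_rfl) ?_
    have h1 : ∀ x, s1 < x → x < s → G2 x + Function.rightLim G2 s ≤ 2 * Function.leftLim G2 s := by
      intro x hx1 hx
      have h2 := h x (s + (s-x)/3) (s - (s-x)/6) (by linarith) (by linarith) (by linarith)
      rw [← hG2e x hx1.le, ← hG2e (s + (s-x)/3) (by linarith), ← hG2e (s - (s-x)/6) (by linarith)] at h2
      have h3 : Function.rightLim G2 s ≤ G2 (s + (s-x)/3) := hm.rightLim_le (by linarith)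
      have h4 : G2 (s - (s-x)/6) ≤ Function.leftLim G2 s := hm.le_leftLim (by linarith)
      linarith
    have h5 : Tendsto (fun x => G2 x + Function.rightLim G2 s) (𝓝[<] s)
        (𝓝 (Function.leftLim G2 s + Function.rightLim G2 s)) := (hm.tendsto_leftLim s).add_const _
    have hev : ∀ᶠ x in 𝓝[<] s, G2 x + Function.rightLim G2 s ≤ 2 * Function.leftLim G2 s := by
      have h6 : ∀ᶠ x in 𝓝[<] s, s1 < x := (eventually_gt_nhds hs).filter_mono nhdsWithin_le_nhds
      have h7 : ∀ᶠ x in 𝓝[<] s, x < s := eventually_nhdsWithin_of_forall (fun x hx => hx)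
      filter_upwards [h6, h7] with x hx1 hx2
      exact h1 x hx1 hx2
    have h6 := le_of_tendsto h5 hev
    linarith
  have midpt : ∀ x y, s1 < x → s1 < y → (G2 x + G2 y)/2 ≤ G2 ((x+y)/2) := by
    intro x y hx hy
    have hc := hcont2 ((x+y)/2) (by linarith)
    have h1 : Tendsto G2 (𝓝[>] ((x+y)/2)) (𝓝 (G2 ((x+y)/2))) := hc.tendsto.mono_left nhdsWithin_le_nhds
    refine ge_of_tendsto h1 (eventually_nhdsWithin_of_forall (fun s hs => ?_))
    have hs' : (x+y)/2 < s := hs
    have := h x y s (by linarith) (by linarith) hs'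
    rw [hG2e x hx.le, hG2e y hy.le, hG2e s (by linarith)]
    exact this
  rw [← hG2e p (by linarith), ← hG2e q (by linarith), ← hG2e r (by linarith)]
  set m : ℝ := (G2 r - G2 p)/(r - p) with hmm
  set φ : ℝ → ℝ := fun x => G2 x - G2 p - m * (x - p) with hφ
  have hcont : ContinuousOn φ (Set.Icc p r) := by
    intro x hx
    have h1 : ContinuousAt G2 x := hcont2 x (lt_of_lt_of_le hs1p hx.1)
    have : ContinuousAt φ x := by
      simp only [hφ]
      exact (h1.sub continuousAt_const).sub (continuousAt_const.mul (continuousAt_id.sub continuousAt_const))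
    exact this.continuousWithinAt
  have hφp : φ p = 0 := by simp [hφ]
  have hφr : φ r = 0 := by
    simp only [hφ, hmm]
    have : r - p ≠ 0 := by linarith
    field_simp; ring
  obtain ⟨x0, hx0, hmin⟩ := isCompact_Icc.exists_isMinOn (s := Set.Icc p r) ⟨p, le_rfl, hpr.le⟩ hcont
  have hge : 0 ≤ φ x0 := by
    by_contra hneg
    push Not at hneg
    have hx1 : p < x0 := lt_of_le_of_ne hx0.1 (by rintro rfl; rw [hφp] at hneg; exact lt_irrefl _ hneg)
    have hx2 : x0 < r := lt_of_le_of_ne hx0.2 (by rintro rfl; rw [hφr] at hneg; exact lt_irrefl _ hneg)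
    have hmp : ∀ d, s1 < x0 - d → s1 < x0 + d → (φ (x0 - d) + φ (x0 + d))/2 ≤ φ x0 := by
      intro d hd1 hd2
      have := midpt (x0 - d) (x0 + d) hd1 hd2
      have e : ((x0 - d) + (x0 + d))/2 = x0 := by ring
      rw [e] at this
      simp only [hφ]; linarith
    rcases le_total (x0 - p) (r - x0) with h1 | h1
    · have h2 := hmp (x0 - p) (by linarith) (by linarith)
      have e : x0 - (x0 - p) = p := by ring
      rw [e, hφp] at h2
      have h3 : φ x0 ≤ φ (x0 + (x0 - p)) := hmin ⟨by linarith, by linarith⟩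
      linarith
    · have h2 := hmp (r - x0) (by linarith) (by linarith)
      have e : x0 + (r - x0) = r := by ring
      rw [e, hφr] at h2
      have h3 : φ x0 ≤ φ (x0 - (r - x0)) := hmin ⟨by linarith, by linarith⟩
      linarith
  have hq : 0 ≤ φ q := hge.trans (hmin ⟨hpq.le, hqr.le⟩)
  have hq1 : m * (q - p) ≤ G2 q - G2 p := by simp only [hφ] at hq; linarith
  have hmr : m * (r - p) = G2 r - G2 p := by
    rw [hmm]; exact div_mul_cancel₀ _ (by linarith)
  have h1 : m ≤ (G2 q - G2 p)/(q - p) := by rw [le_div_iff₀ (by linarith)]; exact hq1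
  have h2 : (G2 r - G2 q)/(r - q) ≤ m := by
    rw [div_le_iff₀ (by linarith)]
    nlinarith
  exact h2.trans h1

end Pool.Agent.H11P.HL
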