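import Pool.Agent.H11P.B

set_option autoImplicit false

namespace Pool.Agent.H11P

open Polynomial

lemma prod_natDegree (s : Multiset ℝ) :
    ((s.map (fun ρ => X + C ρ)).prod : ℝ[X]).natDegree = Multiset.card s ∧
    ((s.map (fun ρ => X + C ρ)).prod : ℝ[X]) ≠ 0 := by
  induction s using Multiset.induction_on with
  | empty => simp
  | cons ρ s ih =>
    rw [Multiset.map_cons, Multiset.prod_cons]
    have h1 : (X + C ρ : ℝ[X]) ≠ 0 := X_add_C_ne_zero ρ
    refine ⟨?_, mul_ne_zero h1 ih.2⟩
    rw [natDegree_mul h1 ih.2, natDegree_X_add_C, ih.1, Multiset.card_cons, add_comm]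

lemma prod_coeff_pos (s : Multiset ℝ) : (∀ ρ ∈ s, 0 < ρ) →
    (∀ k, 0 ≤ ((s.map (fun ρ => X + C ρ)).prod : ℝ[X]).coeff k) ∧
    ∀ k ≤ Multiset.card s, 0 < ((s.map (fun ρ => X + C ρ)).prod : ℝ[X]).coeff k := by
  induction s using Multiset.induction_on with
  | empty =>
    intro _
    constructor
    · intro k
      simp only [Multiset.map_zero, Multiset.prod_zero, coeff_one]
      split_ifs <;> norm_num
    · intro k hk
      have : k = 0 := by simpa using hk
      subst this
      simp
  | cons ρ s ih =>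
    intro h
    have hρ : 0 < ρ := h ρ (Multiset.mem_cons_self ρ s)
    obtain ⟨h1, h2⟩ := ih (fun r hr => h r (Multiset.mem_cons_of_mem hr))
    rw [Multiset.map_cons, Multiset.prod_cons]
    set P := ((s.map (fun ρ => X + C ρ)).prod : ℝ[X]) with hP
    have c0 : ((X + C ρ) * P).coeff 0 = ρ * P.coeff 0 := by
      rw [add_mul, coeff_add, coeff_C_mul]
      simp
    have cs : ∀ k, ((X + C ρ) * P).coeff (k + 1) = P.coeff k + ρ * P.coeff (k + 1) := by
      intro k
      rw [add_mul, coeff_add, coeff_C_mul, coeff_X_mul]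
    constructor
    · intro k
      rcases k with _ | k
      · rw [c0]; exact mul_nonneg hρ.le (h1 0)
      · rw [cs]; exact add_nonneg (h1 k) (mul_nonneg hρ.le (h1 _))
    · intro k hk
      rcases k with _ | k
      · rw [c0]; exact mul_pos hρ (h2 0 (Nat.zero_le _))
      · rw [cs]
        rw [Multiset.card_cons] at hk
        exact add_pos_of_pos_of_nonneg (h2 k (by omega)) (mul_nonneg hρ.le (h1 _))

theorem pos_coeffs {f : ℝ[X]} (hf : RR f) (h0 : 0 < f.coeff 0) : ∀ k ≤ f.natDegree, 0 < f.coeff k := by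
  obtain ⟨c, hc, s, hs, rfl⟩ := RR_factor hf
  have hpos : ∀ ρ ∈ s, 0 < ρ := by
    intro ρ hρ
    rcases (hs ρ hρ).lt_or_eq with h | h
    · exact h
    · exfalso
      rw [coeff_C_mul, coeff_zero_eq_eval_zero, eval_multiset_prod, Multiset.map_map] at h0
      have hz : (Multiset.map (eval 0 ∘ fun ρ : ℝ => X + C ρ) s).prod = 0 := by
        apply Multiset.prod_eq_zero
        refine Multiset.mem_map.2 ⟨ρ, hρ, ?_⟩
        simp [← h]
      rw [hz, mul_zero] at h0
      exact lt_irrefl _ h0
  intro k hk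
  rw [natDegree_C_mul hc.ne', (prod_natDegree s).1] at hk
  rw [coeff_C_mul]
  exact mul_pos hc ((prod_coeff_pos s hpos).2 k hk)

end Pool.Agent.H11P
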