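import Mathlib
import Pool.Agent.H11P.D1
import Pool.Agent.H11P.D2

namespace Pool.Agent.H11P.D

open Finset

/-- lower estimate, nonnegative version -/
lemma lower' {b : ℕ → ℝ} {N m j : ℕ} (hb : ∀ k, 0 ≤ b k) (hbm : 0 < b m) {q : ℝ} (hq : 1 < q) {K : ℝ}
    (hK : 0 < K) (hjm : j ≤ m) (hmN : m + j ≤ N)
    (hmax : ∀ k, k ≤ N → b k ≤ b m) (h1 : b m ≤ K * b (m - j)) (h2 : b m ≤ K * b (m + j)) :
    q^(2*j) / (K^2 * ((N:ℝ)+1)^2) ≤
      ((∑ k ∈ range (N+1), b k * q^k) * (∑ k ∈ range (N+1), b k * q⁻¹^k)) /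
        (∑ k ∈ range (N+1), b k * 1^k)^2 := by
  have hq0 : 0 < q := by linarith
  have p1 : b (m+j) * q^(m+j) ≤ ∑ k ∈ range (N+1), b k * q^k :=
    Finset.single_le_sum (f := fun k => b k * q^k)
      (fun k _ => mul_nonneg (hb k) (by positivity)) (by simp; omega)
  have p2 : b (m-j) * q⁻¹^(m-j) ≤ ∑ k ∈ range (N+1), b k * q⁻¹^k :=
    Finset.single_le_sum (f := fun k => b k * q⁻¹^k)
      (fun k _ => mul_nonneg (hb k) (by positivity)) (by simp; omega)
  have p3 : (∑ k ∈ range (N+1), b k * 1^k) ≤ ((N:ℝ)+1) * b m := by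
    have := Finset.sum_le_card_nsmul (range (N+1)) (fun k => b k * 1^k) (b m) (by
      intro k hk
      have := hmax k (by simp at hk; omega)
      simpa using this)
    simpa using this
  have p31 : b m * 1^m ≤ ∑ k ∈ range (N+1), b k * 1^k :=
    Finset.single_le_sum (f := fun k => b k * 1^k)
      (fun k _ => mul_nonneg (hb k) (by positivity)) (by simp; omega)
  have p30 : 0 < (∑ k ∈ range (N+1), b k * 1^k) := by
    refine lt_of_lt_of_le ?_ p31
    simpa using hbm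
  have hb1 := hb (m+j)
  have hb2 := hb (m-j)
  have hpow : q^(m+j) * q⁻¹^(m-j) = q^(2*j) := by
    rw [inv_pow]
    have : m + j = (m - j) + 2*j := by omega
    rw [this, pow_add]
    field_simp
  have hnum : b (m+j) * b (m-j) * q^(2*j) ≤ (∑ k ∈ range (N+1), b k * q^k) * (∑ k ∈ range (N+1), b k * q⁻¹^k) := by
    calc b (m+j) * b (m-j) * q^(2*j) = (b (m+j) * q^(m+j)) * (b (m-j) * q⁻¹^(m-j)) := by
          rw [← hpow]; ring
      _ ≤ _ := by
        apply mul_le_mul p1 p2 (mul_nonneg hb2 (by positivity))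
        exact Finset.sum_nonneg (fun k _ => mul_nonneg (hb k) (by positivity))
  rw [div_le_div_iff₀ (by positivity) (by positivity)]
  have hsq : (∑ k ∈ range (N+1), b k * 1^k)^2 ≤ (((N:ℝ)+1) * b m)^2 := by
    gcongr
  have hbmm : b m * b m ≤ (K * b (m+j)) * (K * b (m-j)) := by
    apply mul_le_mul h2 h1 hbm.le (mul_nonneg hK.le hb1)
  calc q^(2*j) * (∑ k ∈ range (N+1), b k * 1^k)^2 ≤ q^(2*j) * (((N:ℝ)+1) * b m)^2 := by gcongr
    _ = q^(2*j) * ((N:ℝ)+1)^2 * (b m * b m) := by ring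
    _ ≤ q^(2*j) * ((N:ℝ)+1)^2 * ((K * b (m+j)) * (K * b (m-j))) := by gcongr
    _ = (b (m+j) * b (m-j) * q^(2*j)) * (K^2 * ((N:ℝ)+1)^2) := by ring
    _ ≤ _ := by gcongr

/-- the kink estimate when `F` vanishes below `x0` -/
theorem vanish {F : ℝ → ℝ} {x0 : ℝ} (hx0 : 0 < x0)
    (hmono : ∀ x y, 0 ≤ x → x ≤ y → F x ≤ F y)
    (hF0 : ∀ x, 0 ≤ x → 0 ≤ F x)
    (hz : ∀ x, 0 ≤ x → x < x0 → F x = 0) (hp : ∀ x, x0 < x → 0 < F x)
    {r α : ℝ} (hr : x0 < r) (hα0 : 0 ≤ α)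
    (hright : ∀ t t', r ≤ t → t ≤ t' → F t' ≤ F t * (t'/t)^α)
    (hR : ∀ (N : ℕ) (A : ℝ), 0 < A → x0 < A * Nat.choose N (N/2) → ∀ q y : ℝ, 1 < q → 0 < y → y ≤ 1 →
      (((∑ k ∈ range (N+1), F (A * Nat.choose N k) * q^k) *
        (∑ k ∈ range (N+1), F (A * Nat.choose N k) * q⁻¹^k)) /
        (∑ k ∈ range (N+1), F (A * Nat.choose N k) * 1^k)^2)^y ≤
      ((∑ k ∈ range (N+1), F (A * Nat.choose N k) * (y*q)^k) *
        (∑ k ∈ range (N+1), F (A * Nat.choose N k) * (y/q)^k)) /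
        (∑ k ∈ range (N+1), F (A * Nat.choose N k) * y^k)^2) : False := by
  -- parameters
  set q : ℝ := 2 with hq
  set y : ℝ := (3:ℝ) ^ (-α) / 2 with hy
  have hq1 : 1 < q := by rw [hq]; norm_num
  have h3α : 0 < (3:ℝ)^(-α) := by positivity
  have h3α1 : (3:ℝ)^(-α) ≤ 1 := Real.rpow_le_one_of_one_le_of_nonpos (by norm_num) (by linarith)
  have hy0 : 0 < y := by positivity
  have hy1 : y ≤ 1 := by rw [hy]; linarith
  have hyq : y * q = (3:ℝ)^(-α) := by rw [hy, hq]; ring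
  have hlog2 : 0 < Real.log 2 := Real.log_pos (by norm_num)
  have hrpos : 0 < r := hx0.trans hr
  obtain ⟨M, hM⟩ := exists_nat_ge (Real.log (r / x0) / Real.log 2)
  rw [div_le_iff₀ hlog2] at hM
  have hM2 : r ≤ x0 * 2^M := by
    have h1 : r / x0 ≤ 2^M := by
      rw [← Real.log_le_log_iff (by positivity) (by positivity), Real.log_pow]
      exact hM
    rw [div_le_iff₀ hx0] at h1
    linarith
  obtain ⟨n, hn0, hn1, hgr⟩ := growth (q := q) (y := y) (M := (M:ℝ)) (K := Real.exp α) hq1 hy0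
    (Real.exp_pos _) (by positivity) (M + 2)
  set j : ℕ := n^2 with hj
  have hj1 : 1 ≤ j := Nat.one_le_pow _ _ hn1
  have hjM : M + 2 ≤ j := by rw [hj]; nlinarith
  set N : ℕ := 8 * j^2 with hN
  set k0 : ℕ := 2 * j^2 with hk0
  have hN4 : N = 4 * k0 := by rw [hN, hk0]; ring
  have hchk0 : (0:ℝ) < Nat.choose N k0 := by
    exact_mod_cast Nat.choose_pos (by omega)
  set A : ℝ := (2 * x0) / Nat.choose N k0 with hA
  have hA0 : 0 < A := by positivity
  set c : ℕ → ℝ := fun k => A * Nat.choose N k with hcdef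
  set b : ℕ → ℝ := fun k => F (c k) with hbdef
  have hchpos : ∀ k, k ≤ N → (0:ℝ) < Nat.choose N k := fun k hk => by
    exact_mod_cast Nat.choose_pos hk
  have hc0 : ∀ k, 0 ≤ c k := fun k => by simp only [hcdef]; positivity
  have hb0 : ∀ k, 0 ≤ b k := fun k => hF0 _ (hc0 k)
  have hck0 : c k0 = 2 * x0 := by
    simp only [hcdef, hA]
    rw [div_mul_cancel₀ _ hchk0.ne']
  have hjj : 1 ≤ j^2 := Nat.one_le_pow _ _ hj1
  have hj2 : M + 2 ≤ j^2 := hjM.trans (Nat.le_self_pow (by norm_num) j)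
  have hj3 : (M+2) * j ≤ j^2 := by rw [sq]; exact Nat.mul_le_mul_right _ hjM
  have hj4 : M + 2 * j ≤ j^2 := by nlinarith
  have hck1 : r ≤ c (k0 + M) := by
    have h1 := manyC (N := N) (k0 := k0) M (by omega)
    have h2 : c (k0 + M) ≥ 2^M * c k0 := by
      simp only [hcdef]
      nlinarith [mul_le_mul_of_nonneg_left h1 hA0.le]
    rw [hck0] at h2
    have h3 : 0 < (2:ℝ)^M := by positivity
    nlinarith
  have H2 : ∀ k, k ≤ k0 → b k * (y/q)^k ≤ b k0 * (y/q)^k0 := by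
    intro k hk
    rcases hk.lt_or_eq with h | h
    · have h1 := manyA hN4 (k0 - k) k (by omega)
      have h2 : c k < x0 := by
        have h4 : (3:ℝ) * Nat.choose N k ≤ Nat.choose N k0 := by
          have h5 : (3:ℝ)^1 ≤ 3^(k0-k) := pow_le_pow_right₀ (by norm_num) (by omega)
          have h6 : (0:ℝ) ≤ Nat.choose N k := by positivity
          nlinarith
        have h7 : 3 * c k ≤ c k0 := by
          simp only [hcdef]
          nlinarith [mul_le_mul_of_nonneg_left h4 hA0.le]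
        rw [hck0] at h7
        linarith
      have h3 : b k = 0 := hz _ (hc0 k) h2
      rw [h3, zero_mul]
      exact mul_nonneg (hb0 _) (by positivity)
    · rw [h]
  have H1 : ∀ k, k0 + M ≤ k → k ≤ N → b k * (y*q)^k ≤ b (k0+M) * (y*q)^(k0+M) := by
    intro k hk hkN
    obtain ⟨d, hd⟩ := Nat.exists_eq_add_of_le hk
    have h1 := manyB hN4 (by omega : k0 ≤ k0 + M) d
    rw [← hd] at h1
    have hc1pos : 0 < c (k0 + M) := lt_of_lt_of_le hrpos hck1
    have h3 : c k ≤ 3^d * c (k0+M) := by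
      simp only [hcdef]
      nlinarith [mul_le_mul_of_nonneg_left h1 hA0.le]
    have h5 : b k ≤ b (k0+M) * ((3:ℝ)^d)^α := by
      rcases le_total (c (k0+M)) (c k) with h | h
      · have h4 := hright _ _ hck1 h
        refine h4.trans ?_
        apply mul_le_mul_of_nonneg_left _ (hb0 _)
        apply Real.rpow_le_rpow (div_nonneg (hc0 k) hc1pos.le) _ hα0
        rw [div_le_iff₀ hc1pos]; exact h3
      · have h4 := hmono _ _ (hc0 k) h
        have h6 : (1:ℝ) ≤ ((3:ℝ)^d)^α := Real.one_le_rpow (one_le_pow₀ (by norm_num)) hα0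
        calc b k ≤ b (k0+M) := h4
          _ = b (k0+M) * 1 := (mul_one _).symm
          _ ≤ _ := mul_le_mul_of_nonneg_left h6 (hb0 _)
    have h6 : b k * (y*q)^d ≤ b (k0+M) := by
      have h7 : ((3:ℝ)^d)^α * (y*q)^d = 1 := by
        rw [hyq, ← Real.rpow_natCast ((3:ℝ)^(-α)) d, ← Real.rpow_mul (by norm_num), ← Real.rpow_natCast 3 d,
          ← Real.rpow_mul (by norm_num), ← Real.rpow_add (by norm_num)]
        have : (d:ℝ) * α + -α * d = 0 := by ring
        rw [this, Real.rpow_zero]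
      calc b k * (y*q)^d ≤ (b (k0+M) * ((3:ℝ)^d)^α) * (y*q)^d := by gcongr
        _ = b (k0+M) * (((3:ℝ)^d)^α * (y*q)^d) := by ring
        _ = b (k0+M) := by rw [h7, mul_one]
    have hyq0 : 0 < y*q := by positivity
    calc b k * (y*q)^k = (b k * (y*q)^d) * (y*q)^(k0+M) := by rw [hd, pow_add]; ring
      _ ≤ b (k0+M) * (y*q)^(k0+M) := by gcongr
  have hup := upper (b := b) (N := N) (k0 := k0) (M := M) hb0 hy0 hq1 (by omega) H1 H2
  have hcm : ∀ k, k ≤ N → c k ≤ c (4*j^2) := by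
    intro k hk
    have : Nat.choose N k ≤ Nat.choose N (4*j^2) := by
      have h := Nat.choose_le_middle k N
      have h2 : N / 2 = 4*j^2 := by omega
      rwa [h2] at h
    have h' : (Nat.choose N k : ℝ) ≤ Nat.choose N (4*j^2) := by exact_mod_cast this
    simp only [hcdef]
    gcongr
  have hmax : ∀ k, k ≤ N → b k ≤ b (4*j^2) := fun k hk => hmono _ _ (hc0 k) (hcm k hk)
  have hjm : j ≤ 4*j^2 := by nlinarith
  have hmid := midD hj1
  have h4 : r ≤ c (4*j^2 - j) := by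
    refine hck1.trans ?_
    have hle := choose_mono_half (N := N) (k := k0 + M) (l := 4*j^2 - j) (by omega) (by omega)
    have hle' : (Nat.choose N (k0+M) : ℝ) ≤ Nat.choose N (4*j^2 - j) := by exact_mod_cast hle
    simp only [hcdef]
    gcongr
  have hcpos : 0 < c (4*j^2 - j) := lt_of_lt_of_le hrpos h4
  have hlow1 : b (4*j^2) ≤ Real.exp α * b (4*j^2 - j) := by
    have h6 := hright _ _ h4 (hcm (4*j^2 - j) (by omega))
    have h7 : c (4*j^2) / c (4*j^2 - j) ≤ Real.exp 1 := by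
      rw [div_le_iff₀ hcpos]
      simp only [hcdef]
      have := mul_le_mul_of_nonneg_left hmid hA0.le
      linarith
    have h8 : (c (4*j^2) / c (4*j^2 - j))^α ≤ Real.exp α := by
      calc (c (4*j^2) / c (4*j^2 - j))^α ≤ (Real.exp 1)^α :=
            Real.rpow_le_rpow (div_nonneg (hc0 _) hcpos.le) h7 hα0
        _ = Real.exp α := by rw [← Real.exp_mul, one_mul]
    calc b (4*j^2) ≤ b (4*j^2 - j) * (c (4*j^2) / c (4*j^2 - j))^α := h6
      _ ≤ b (4*j^2 - j) * Real.exp α := mul_le_mul_of_nonneg_left h8 (hb0 _)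
      _ = _ := mul_comm _ _
  have hsym : b (4*j^2 + j) = b (4*j^2 - j) := by
    simp only [hbdef, hcdef]
    have : Nat.choose N (4*j^2+j) = Nat.choose N (4*j^2 - j) := by
      rw [← Nat.choose_symm (by omega : 4*j^2 - j ≤ N)]
      congr 1; omega
    rw [this]
  have hcmid : x0 < c (4*j^2) := lt_of_lt_of_le (lt_of_lt_of_le hr h4) (hcm _ (by omega))
  have hbm : 0 < b (4*j^2) := hp _ hcmid
  have hlow := lower' (b := b) (N := N) (m := 4*j^2) (j := j) hb0 hbm hq1 (Real.exp_pos α)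
    hjm (by omega) hmax hlow1 (by rw [hsym]; exact hlow1)
  have hN2 : N / 2 = 4*j^2 := by omega
  have hRR := hR N A hA0 (by rw [hN2]; exact hcmid) q y hq1 hy0 hy1
  have hS0 : 0 < ∑ k ∈ range (N+1), b k * y^k := by
    have p31 : b (4*j^2) * y^(4*j^2) ≤ ∑ k ∈ range (N+1), b k * y^k :=
      Finset.single_le_sum (f := fun k => b k * y^k)
        (fun k _ => mul_nonneg (hb0 k) (by positivity)) (by simp; omega)
    exact lt_of_lt_of_le (by positivity) p31
  have e1 : (q^(2*j) / ((Real.exp α)^2 * ((N:ℝ)+1)^2))^y ≤ ((N:ℝ)+1)^2 * q^M := by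
    calc _ ≤ _ := Real.rpow_le_rpow (by positivity) hlow hy0.le
      _ ≤ _ := hRR
      _ ≤ _ := by
        rw [div_le_iff₀ (by positivity)]
        calc _ ≤ _ := hup
          _ = _ := by ring
  have hNr : (N:ℝ) = 8 * ((n:ℝ)^2)^2 := by rw [hN, hj]; push_cast; ring
  rw [hNr] at e1
  have e2 : q^(2*(n:ℝ)^2) = q^(2*j) := by
    have h0 : (2*(n:ℝ)^2) = ((2*j : ℕ) : ℝ) := by rw [hj]; push_cast; ring
    rw [h0, Real.rpow_natCast]
  have e3 : q^(M:ℝ) = q^M := Real.rpow_natCast _ _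
  rw [e2, e3] at hgr
  exact absurd hgr (not_lt.mpr e1)

end Pool.Agent.H11P.D
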