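import Pool.Agent.H11P.G
import Pool.Agent.H11P.U
import Pool.Agent.H11P.HL
import Pool.Agent.H11P.V

namespace Pool.Agent.H11P

open Polynomial

theorem RineqG {B : ℝ[X]} (hB : RR B) {q y : ℝ} (hq : 1 < q) (hy : 0 < y) (hy1 : y ≤ 1) :
    ((B.eval q * B.eval q⁻¹) / (B.eval 1) ^ 2) ^ y ≤ (B.eval (y * q) * B.eval (y / q)) / (B.eval y) ^ 2 := by
  obtain ⟨c, hc, s, hs, rfl⟩ := RR_factor hB
  have h := prod_Rineq hq hy hy1 s hs
  simp only [eval_mul, eval_C]
  set P : ℝ[X] := (s.map (fun ρ => X + C ρ)).prod with hP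
  have e1 : (c * P.eval q * (c * P.eval q⁻¹)) / (c * P.eval 1) ^ 2 = (P.eval q * P.eval q⁻¹) / (P.eval 1) ^ 2 := by
    rw [mul_pow, show c * P.eval q * (c * P.eval q⁻¹) = c ^ 2 * (P.eval q * P.eval q⁻¹) by ring,
      mul_div_mul_left _ _ (by positivity)]
  have e2 : (c * P.eval (y * q) * (c * P.eval (y / q))) / (c * P.eval y) ^ 2 =
      (P.eval (y * q) * P.eval (y / q)) / (P.eval y) ^ 2 := by
    rw [mul_pow, show c * P.eval (y * q) * (c * P.eval (y / q)) = c ^ 2 * (P.eval (y * q) * P.eval (y / q)) by ring,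
      mul_div_mul_left _ _ (by positivity)]
  rw [e1, e2]
  exact h

theorem strong {F : ℝ → ℝ} (hFn : ∀ x, 0 ≤ x → 0 ≤ F x) (hF0 : F 0 = 0) (hP : Preserves F) :
    (∀ x, 0 ≤ x → F x = 0) ∨
    ∃ c α : ℝ, 0 < c ∧ (α = 1 ∨ 11/10 < α) ∧ ∀ x, 0 ≤ x → F x = c * x ^ α := by
  have hposc : ∀ f : ℝ[X], RR f → 0 < f.coeff 0 → ∀ k ≤ f.natDegree, 0 < f.coeff k :=
    fun f hf h0 => pos_coeffs hf h0
  by_cases hpos : ∀ x, 0 < x → 0 < F x
  · right
    refine result_main.1 F hFn hF0 ?_
    intro d f hf
    have hR := hf.rr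
    rcases red hFn hF0 hP hposc d f hf.1 hR d hf.1 with h | h
    · exfalso
      have hl : 0 < f.leadingCoeff :=
        lt_of_le_of_ne (hf.2.1 _) (Ne.symm (leadingCoeff_ne_zero.2 hR.ne_zero))
      have e := congrArg (fun p => coeff p f.natDegree) h
      simp only [app_coeff hF0 hf.1, coeff_zero] at e
      exact absurd e (hpos _ hl).ne'
    · refine ⟨?_, h.1, h.2⟩
      unfold app
      apply natDegree_sum_le_of_forall_le
      intro j hj
      refine (natDegree_monomial_le _).trans ?_
      simp at hj; omega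
  · left
    push Not at hpos
    obtain ⟨x1, hx1, hx1F⟩ := hpos
    have hx1F' : F x1 = 0 := le_antisymm hx1F (hFn x1 hx1.le)
    by_contra hne
    push Not at hne
    obtain ⟨x2, hx2, hx2F⟩ := hne
    have hx2p : 0 < F x2 := lt_of_le_of_ne (hFn x2 hx2) (Ne.symm hx2F)
    have hmono : ∀ x y, 0 ≤ x → x ≤ y → F x ≤ F y := fun x y hx hxy => mono hFn hF0 hP hposc hx hxy
    set S : Set ℝ := {x | 0 ≤ x ∧ F x = 0} with hS
    have hne1 : S.Nonempty := ⟨x1, hx1.le, hx1F'⟩
    have hbdd : BddAbove S := by
      refine ⟨x2, fun s hs => ?_⟩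
      by_contra hlt
      push Not at hlt
      have := hmono x2 s hx2 hlt.le
      rw [hs.2] at this
      linarith
    set x0 : ℝ := sSup S with hx0
    have hx0p : 0 < x0 := lt_of_lt_of_le hx1 (le_csSup hbdd ⟨hx1.le, hx1F'⟩)
    have hz : ∀ x, 0 ≤ x → x < x0 → F x = 0 := by
      intro x hx hlt
      obtain ⟨s, hs, hxs⟩ := exists_lt_of_lt_csSup hne1 hlt
      have := hmono x s hx hxs.le
      rw [hs.2] at this
      exact le_antisymm this (hFn x hx)
    have hp : ∀ x, x0 < x → 0 < F x := by
      intro x hx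
      have hx' : 0 ≤ x := hx0p.le.trans hx.le
      refine lt_of_le_of_ne (hFn x hx') (fun h => ?_)
      have : x ≤ x0 := le_csSup hbdd ⟨hx', h.symm⟩
      linarith
    set G : ℝ → ℝ := fun s => Real.log (F (Real.exp s)) with hG
    set s0 : ℝ := Real.log x0 with hs0
    have hexp : ∀ s, s0 < s → x0 < Real.exp s := by
      intro s hs
      rwa [hs0, Real.log_lt_iff_lt_exp hx0p] at hs
    have hnear : ∀ x y s, s0 < x → s0 < y → (x+y)/2 < s → (G x + G y)/2 ≤ G s := by
      intro x y s hx hy hs
      have hl := logc hFn hF0 hP hposc (Real.exp_pos x) (Real.exp_pos s) (Real.exp_pos y) (by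
        rw [← Real.exp_add, ← Real.exp_nat_mul]
        apply Real.exp_lt_exp.mpr
        push_cast; linarith)
      have p1 := hp _ (hexp x hx)
      have p2 := hp _ (hexp s (by linarith))
      have p3 := hp _ (hexp y hy)
      have := Real.log_le_log (mul_pos p1 p3) hl
      rw [Real.log_mul p1.ne' p3.ne', Real.log_pow] at this
      simp only [hG]
      push_cast at this
      linarith
    have hc := HL.conc hnear
    set α : ℝ := (G (s0 + 2) - G (s0 + 1)) / ((s0 + 2) - (s0 + 1)) with hα
    have hα0 : 0 ≤ α := by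
      apply div_nonneg _ (by linarith)
      have := hnear (s0+1) (s0+1) (s0+2) (by linarith) (by linarith) (by linarith)
      linarith
    have hFe : ∀ x, x0 < x → F x = Real.exp (G (Real.log x)) := by
      intro x hx
      have hxp : 0 < x := hx0p.trans hx
      simp only [hG]
      rw [Real.exp_log hxp, Real.exp_log (hp x hx)]
    have hr : x0 < Real.exp (s0 + 2) := hexp _ (by linarith)
    have hright : ∀ t t', Real.exp (s0+2) ≤ t → t ≤ t' → F t' ≤ F t * (t'/t)^α := by
      intro t t' h1 h2
      have ht0 : x0 < t := lt_of_lt_of_le hr h1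
      have htp : 0 < t := hx0p.trans ht0
      have htp' : 0 < t' := lt_of_lt_of_le htp h2
      rw [hFe t ht0, hFe t' (lt_of_lt_of_le ht0 h2), Real.rpow_def_of_pos (by positivity), ← Real.exp_add]
      apply Real.exp_le_exp.mpr
      rw [Real.log_div htp'.ne' htp.ne']
      have l1 : s0 + 2 ≤ Real.log t := by
        rw [Real.le_log_iff_exp_le htp]; exact h1
      have l2 : Real.log t ≤ Real.log t' := Real.log_le_log htp h2
      rcases l2.lt_or_eq with h | h
      · have hs : (G (Real.log t') - G (Real.log t))/(Real.log t' - Real.log t) ≤ α := by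
          rcases l1.lt_or_eq with h3 | h3
          · have e1 := hc (s0+1) (s0+2) (Real.log t) (by linarith) (by linarith) h3
            have e2 := hc (s0+2) (Real.log t) (Real.log t') (by linarith) h3 h
            exact (e2.trans e1)
          · rw [← h3] at h ⊢
            exact hc (s0+1) (s0+2) (Real.log t') (by linarith) (by linarith) h
        rw [div_le_iff₀ (by linarith)] at hs
        linarith
      · rw [h]; simp
    refine D.vanish hx0p hmono hFn hz hp hr hα0 hright ?_
    intro N A hA hAN q y hq hy hy1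
    have hdeg := (P_binom hA N).1
    have hB : RR (app F N (C A * (1 + X)^N)) := by
      rcases red hFn hF0 hP hposc N _ hdeg (P_binom hA N).rr N hdeg with h | h
      · exfalso
        have e := congrArg (fun p => coeff p (N/2)) h
        simp only [app_coeff hF0 hdeg, coeff_zero, coeff_C_mul, coeff_one_add_X_pow] at e
        exact absurd e (hp _ hAN).ne'
      · exact h
    have hr := RineqG hB hq hy hy1
    simp only [app_eval, coeff_C_mul, coeff_one_add_X_pow] at hr
    exact hr

end Pool.Agent.H11P
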